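import Pool.Agent.NPC.Defs
import Mathlib

set_option autoImplicit false

/-!
# The complex structured singular value: definitions
-/

namespace Pool.Agent.H688R2.Mu

open Pool.Agent.NPC
open scoped Matrix.Norms.L2Operator

/-- The number of the block which contains the index `i`, for the list of block sizes `K`. -/
def blk : List ℕ → ℕ → ℕ
  | [], _ => 0
  | k :: K, i => if i < k then 0 else blk K (i - k) + 1

/-- `Δ` is block diagonal for the block structure `K` and every diagonal block has spectral norm
at most `1`. -/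
def IsPert {n : ℕ} (K : List ℕ) (Δ : Matrix (Fin n) (Fin n) ℂ) : Prop :=
  (∀ i j : Fin n, blk K i ≠ blk K j → Δ i j = 0) ∧
    ∀ b : ℕ, ‖Δ.submatrix (fun i : {i : Fin n // blk K i = b} => i.1)
      (fun i : {i : Fin n // blk K i = b} => i.1)‖ ≤ 1

/-- The complex structured singular value of `M` for the block structure `K`. -/
noncomputable def mu {n : ℕ} (K : List ℕ) (M : Matrix (Fin n) (Fin n) ℂ) : ℝ :=
  sInf {ρ : ℝ | 0 < ρ ∧ ∀ Δ : Matrix (Fin n) (Fin n) ℂ, IsPert K Δ →
    (1 - ((ρ⁻¹ : ℝ) : ℂ) • (Δ * M)).det ≠ 0}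

/-- An instance: the rows of a matrix with entries in `ℚ(i)`, given by real and imaginary parts,
and the list of block sizes. -/
abbrev Inst := List (List (ℚ × ℚ)) × List ℕ

/-- The matrix of an instance; its size is the sum of the block sizes. -/
noncomputable def mat (I : Inst) : Matrix (Fin I.2.sum) (Fin I.2.sum) ℂ := fun i j =>
  ((((I.1.getD i []).getD j (0, 0)).1 : ℚ) : ℂ) +
    ((((I.1.getD i []).getD j (0, 0)).2 : ℚ) : ℂ) * Complex.I

/-- The instance is well formed: there is at least one block, the blocks have positive sizes and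
the matrix is square of the right size. -/
def Valid (I : Inst) : Prop :=
  I.2 ≠ [] ∧ (∀ k ∈ I.2, 0 < k) ∧ I.1.length = I.2.sum ∧ ∀ row ∈ I.1, row.length = I.2.sum

/-- The complex structured singular value of an instance. -/
noncomputable def muI (I : Inst) : ℝ := mu I.2 (mat I)

/-- `y` is an `r`-approximation of the complex structured singular value of `I`. -/
def IsApprox (r : ℝ) (I : Inst) (y : ℚ) : Prop :=
  (muI I ≤ (y : ℝ) ∧ (y : ℝ) ≤ (1 + r) * muI I) ∨ (muI I / (1 + r) ≤ (y : ℝ) ∧ (y : ℝ) ≤ muI I)

/-- The `r`-approximation problem for the complex structured singular value is `NP`-hard: every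
problem in `NP` is solved in polynomial time with one query to any solution of the
`r`-approximation problem. -/
def MuNPHard (r : ℝ) : Prop :=
  ∀ L : Set (List Bool), InNP L → ∃ F G : List Bool → List Bool, PolyTime F ∧ PolyTime G ∧
    ∀ x : List Bool, ∃ I : Inst, F x = bits I ∧ Valid I ∧
      ∀ y : ℚ, IsApprox r I y → (x ∈ L ↔ G (pairBits x (bits y)) = [true])

/-- A literal: a variable and the value which makes the literal true. -/
abbrev Lit := ℕ × Bool

/-- A 3-CNF formula: each clause has three literals. -/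
abbrev Cnf3 := List (Lit × Lit × Lit)

/-- The value of a clause. -/
def clVal (a : ℕ → Bool) (c : Lit × Lit × Lit) : Bool :=
  (a c.1.1 == c.1.2) || ((a c.2.1.1 == c.2.1.2) || (a c.2.2.1 == c.2.2.2))

/-- The formula is satisfiable. -/
def Sat3 (φ : Cnf3) : Prop := ∃ a : ℕ → Bool, ∀ c ∈ φ, clVal a c = true

/-- No assignment satisfies more than the fraction `1 - δ` of the clauses. -/
def Far3 (δ : ℝ) (φ : Cnf3) : Prop :=
  ∀ a : ℕ → Bool, ((φ.countP (clVal a) : ℕ) : ℝ) ≤ (1 - δ) * (φ.length : ℝ)

/-- The conclusion of the PCP theorem, for the gap `δ`: every problem in `NP` reduces in polynomial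
time to distinguishing satisfiable 3-CNF formulas from 3-CNF formulas in which at most the fraction
`1 - δ` of the clauses can be satisfied. -/
def PCP (δ : ℝ) : Prop :=
  ∀ L : Set (List Bool), InNP L → ∃ F : List Bool → List Bool, PolyTime F ∧
    ∀ x : List Bool, ∃ φ : Cnf3, F x = bits φ ∧ φ ≠ [] ∧ (x ∈ L → Sat3 φ) ∧ (x ∉ L → Far3 δ φ)

end Pool.Agent.H688R2.Mu
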