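import Pool.Agent.H688R2.Mu.PolyMu

set_option autoImplicit false

/-!
# Constant-factor approximation of the complex structured singular value is `NP`-hard
-/

namespace Pool.Agent.H688R2.Mu

open Pool.Agent.NPC

/-- the constants of the reduction -/
theorem exists_consts {δ : ℝ} (hδ : 0 < δ) : ∃ (K : ℕ) (q : ℚ) (ε W : ℝ), 0 < K ∧ 0 < ε ∧
    0 < q ∧ 0 < W ∧ VV K + 12 * Real.sqrt 2 / K - 4 * δ ≤ W ∧ W * (1 + ε) ^ 3 < q ∧
    (q : ℝ) * (1 + ε) ^ 3 < VV K := by
  have hc0 : 0 < Real.sqrt 2 := Real.sqrt_pos.2 (by norm_num)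
  obtain ⟨K, hK⟩ := exists_nat_gt (12 * Real.sqrt 2 / δ)
  have hK0 : (0 : ℝ) < K := lt_trans (by positivity) hK
  have hK0' : 0 < K := by exact_mod_cast hK0
  have hslack : 12 * Real.sqrt 2 / K ≤ δ := by
    rw [div_lt_iff₀ hδ] at hK
    rw [div_le_iff₀ hK0]
    linarith
  have hVV : (8 : ℝ) ≤ VV K := by
    unfold VV
    have : 0 ≤ 24 * Real.sqrt 2 * (K : ℝ) := by positivity
    linarith
  set W : ℝ := max (VV K - 3 * δ) 4 with hW
  have hW4 : 4 ≤ W := le_max_right _ _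
  have hWV : W < VV K := by
    rw [hW, max_lt_iff]
    constructor <;> linarith
  obtain ⟨q, hq1, hq2⟩ := exists_rat_btwn hWV
  have hq0 : (0 : ℝ) < q := by linarith
  have hW0 : 0 < W := by linarith
  set c : ℝ := min (VV K / q) (q / W) with hc
  have hc1 : 1 < c := by
    rw [hc, lt_min_iff]
    constructor
    · rw [one_lt_div hq0]; exact hq2
    · rw [one_lt_div hW0]; exact hq1
  set ε : ℝ := min 1 ((c - 1) / 8) with hε
  have hε0 : 0 < ε := by
    rw [hε, lt_min_iff]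
    constructor
    · norm_num
    · linarith
  have hε1 : ε ≤ 1 := min_le_left _ _
  have hε2 : ε ≤ (c - 1) / 8 := min_le_right _ _
  have hcube : (1 + ε) ^ 3 < c := by
    have h1 : (1 + ε) ^ 3 ≤ 1 + 7 * ε := by
      have a1 : 0 ≤ ε * (1 - ε) := mul_nonneg hε0.le (sub_nonneg.2 hε1)
      have a2 : 0 ≤ ε * (ε * (1 - ε)) := mul_nonneg hε0.le a1
      nlinarith
    linarith
  refine ⟨K, q, ε, W, hK0', hε0, by exact_mod_cast hq0, hW0, ?_, ?_, ?_⟩
  · refine le_trans ?_ (le_max_left _ _)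
    linarith
  · have h1 : (1 + ε) ^ 3 < q / W := hcube.trans_le (min_le_right _ _)
    rw [lt_div_iff₀ hW0] at h1
    linarith
  · have h1 : (1 + ε) ^ 3 < VV K / q := hcube.trans_le (min_le_left _ _)
    rw [lt_div_iff₀ hq0] at h1
    linarith

lemma test_iff {q : ℚ} (hq : 0 < q) (φ : Cnf3) {y : ℚ} (hy : 0 ≤ y) :
    tstM (q.num.natAbs, q.den) φ (y.num, y.den) = true ↔
      (q : ℝ) * φ.length ≤ (y : ℝ) ^ 3 := by
  unfold tstM
  rw [decide_eq_true_eq]
  simp only
  have h1 : (0 : ℝ) < (q.den : ℝ) := by exact_mod_cast q.den_pos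
  have h2 : (0 : ℝ) < (y.den : ℝ) := by exact_mod_cast y.den_pos
  have hqn : ((q.num.natAbs : ℕ) : ℝ) = (q.num : ℝ) := by
    rw [Nat.cast_natAbs, abs_of_nonneg (Rat.num_nonneg.2 hq.le)]
  have hyn : ((y.num.natAbs : ℕ) : ℝ) = (y.num : ℝ) := by
    rw [Nat.cast_natAbs, abs_of_nonneg (Rat.num_nonneg.2 hy)]
  have e1 : (q : ℝ) = (q.num : ℝ) / q.den := by exact_mod_cast (Rat.num_div_den q).symm
  have e2 : (y : ℝ) = (y.num : ℝ) / y.den := by exact_mod_cast (Rat.num_div_den y).symm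
  rw [← @Nat.cast_le ℝ]
  push_cast
  rw [hqn, hyn, e1, e2, div_pow, div_mul_eq_mul_div, div_le_div_iff₀ h1 (by positivity)]
  constructor
  · intro h; linarith
  · intro h; linarith

theorem far_zero (φ : Cnf3) : Far3 0 φ := by
  intro a
  have : φ.countP (clVal a) ≤ φ.length := List.countP_le_length
  have h : ((φ.countP (clVal a) : ℕ) : ℝ) ≤ (φ.length : ℝ) := by exact_mod_cast this
  linarith

/-- correctness of the reduction -/
theorem correct {δ : ℝ} {K : ℕ} {q : ℚ} {ε W : ℝ} (hK : 0 < K) (hε : 0 < ε)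
    (hq : 0 < q) (h1 : VV K + 12 * Real.sqrt 2 / K - 4 * δ ≤ W)
    (h2 : W * (1 + ε) ^ 3 < q) (h3 : (q : ℝ) * (1 + ε) ^ 3 < VV K) {φ : Cnf3} (hφ : φ ≠ [])
    {y : ℚ} (hy : IsApprox ε (red K φ) y) :
    (Sat3 φ → tstM (q.num.natAbs, q.den) φ (y.num, y.den) = true) ∧
    (Far3 δ φ → tstM (q.num.natAbs, q.den) φ (y.num, y.den) = false) := by
  have hm : (0 : ℝ) < φ.length := by
    have : 0 < φ.length := List.length_pos_iff.2 hφ
    exact_mod_cast this
  have hmu0 : 0 ≤ muI (red K φ) := Real.sInf_nonneg (fun a ha => ha.1.le)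
  have hε1 : (0 : ℝ) < 1 + ε := by linarith
  have hlow : muI (red K φ) / (1 + ε) ≤ y := by
    rcases hy with ⟨h, -⟩ | ⟨h, -⟩
    · refine le_trans ?_ h
      rw [div_le_iff₀ hε1]
      nlinarith
    · exact h
  have hup : (y : ℝ) ≤ (1 + ε) * muI (red K φ) := by
    rcases hy with ⟨-, h⟩ | ⟨-, h⟩
    · exact h
    · refine h.trans ?_
      nlinarith
  have hy0' : (0 : ℝ) ≤ y := le_trans (by positivity) hlow
  have hy0 : 0 ≤ y := by exact_mod_cast hy0'
  rw [div_le_iff₀ hε1] at hlow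
  constructor
  · intro hsat
    rw [test_iff hq φ hy0]
    obtain ⟨z, hz, hzL⟩ := lower (K := K) hsat
    have hVVpos : 0 < VV K := by
      have : (0 : ℝ) < q := by exact_mod_cast hq
      exact lt_trans (by positivity) h3
    have h4 : VV K * φ.length ≤ muI (red K φ) ^ 3 :=
      le_muI_cube (nz φ) (rows K φ) (rows_ok K φ) (by positivity)
        (fun z hz => upper hK (far_zero φ) z hz) z hz hzL
    have h5 : muI (red K φ) ^ 3 ≤ (y * (1 + ε)) ^ 3 := pow_le_pow_left₀ hmu0 hlow 3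
    rw [mul_pow] at h5
    have h6 : (0 : ℝ) < (1 + ε) ^ 3 := by positivity
    have h7 : (q : ℝ) * (1 + ε) ^ 3 * φ.length ≤ VV K * φ.length :=
      mul_le_mul_of_nonneg_right h3.le hm.le
    have h8 : ((q : ℝ) * φ.length) * (1 + ε) ^ 3 ≤ (y : ℝ) ^ 3 * (1 + ε) ^ 3 := by linarith
    exact le_of_mul_le_mul_right h8 h6
  · intro hfar
    rw [← Bool.not_eq_true, test_iff hq φ hy0, not_le]
    have h4 : muI (red K φ) ^ 3 ≤ (VV K + 12 * Real.sqrt 2 / K - 4 * δ) * φ.length :=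
      muI_cube_le (nz φ) (rows K φ) (rows_ok K φ) (fun z hz => upper hK hfar z hz)
    have h5 : (y : ℝ) ^ 3 ≤ ((1 + ε) * muI (red K φ)) ^ 3 := pow_le_pow_left₀ hy0' hup 3
    rw [mul_pow] at h5
    have h6 : muI (red K φ) ^ 3 ≤ W * φ.length :=
      h4.trans (mul_le_mul_of_nonneg_right h1 hm.le)
    have h7 : (1 + ε) ^ 3 * muI (red K φ) ^ 3 ≤ (1 + ε) ^ 3 * (W * φ.length) :=
      mul_le_mul_of_nonneg_left h6 (by positivity)
    have h8 : (W * (1 + ε) ^ 3) * φ.length < q * φ.length := mul_lt_mul_of_pos_right h2 hm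
    linarith

/-- Gap hardness of 3SAT gives hardness of approximation of the structured singular value. -/
theorem main {δ : ℝ} (hδ : 0 < δ) : ∃ ε : ℝ, 0 < ε ∧ (PCP δ → MuNPHard ε) := by
  obtain ⟨K, q, ε, W, hK, hε, hq, -, h1, h2, h3⟩ := exists_consts hδ
  refine ⟨ε, hε, fun hpcp L hL => ?_⟩
  obtain ⟨F, hF, hFs⟩ := hpcp L hL
  have hF' := Pool.Agent.H569R2.poly_of_polyTime hF
  have p1 : Poly (fun x : List Bool => (unbits Cnf3 (F x)).map (fun φ => red K φ)) :=
    by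
      refine Poly.optMap ?_ ?_
      · exact poly_unbits.comp hF'
      · exact (p_redM K).comp (Poly.snd Poly.id)
  have p2 : Poly (fun u : List Bool => ((unbits Cnf3 (F (unpair u).1)).bind (fun φ =>
      (unbits (ℤ × ℕ) (unpair u).2).map (fun y => tstM (q.num.natAbs, q.den) φ y))).getD false) := by
    refine Poly.optGetD (Poly.optBind (f := fun u φ => (unbits (ℤ × ℕ) (unpair u).2).map
      (fun y => tstM (q.num.natAbs, q.den) φ y))
      (poly_unbits.comp (hF'.comp (Poly.fst poly_unpair))) ?_) (NPC.Poly.const false)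
    refine Poly.optMap ?_ ?_
    · exact poly_unbits.comp (Poly.snd (poly_unpair.comp (Poly.fst Poly.id)))
    · exact p_tstM _ (Poly.snd (Poly.fst Poly.id)) (Poly.snd Poly.id)
  refine ⟨_, _, polyTime_opt p1, polyTime_of_poly p2, fun x => ?_⟩
  obtain ⟨φ, hφ, hne, hyes, hno⟩ := hFs x
  refine ⟨red K φ, ?_, inst_valid _ _, fun y hy => ?_⟩
  · simp only [hφ, unbits_bits, Option.map_some]
  · have e : ((unbits Cnf3 (F (unpair (pairBits x (bits y))).1)).bind (fun φ =>
        (unbits (ℤ × ℕ) (unpair (pairBits x (bits y))).2).map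
          (fun y => tstM (q.num.natAbs, q.den) φ y))).getD false =
        tstM (q.num.natAbs, q.den) φ (y.num, y.den) := by
      have hb : bits y = bits (y.num, y.den) := rfl
      rw [unpair_pairBits]
      simp only [hφ, unbits_bits, Option.bind_some]
      rw [hb, unbits_bits]
      rfl
    rw [e]
    obtain ⟨c1, c2⟩ := correct hK hε hq h1 h2 h3 hne hy
    constructor
    · intro hx
      rw [c1 (hyes hx)]
    · intro ht
      by_contra hx
      rw [c2 (hno hx)] at ht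
      simp at ht

end Pool.Agent.H688R2.Mu
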