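import Pool.Agent.H688R2.Mu.Loc

set_option autoImplicit false

/-!
# From gap-3SAT to the structured singular value
-/

namespace Pool.Agent.H688R2.Mu

open Pool.Agent.NPC Complex

/-- the names of the variables, with multiplicity -/
def names (φ : Cnf3) : List ℕ := φ.flatMap (fun c => [c.1.1, c.2.1.1, c.2.2.1])

/-- the index of a variable -/
def idx (l : List ℕ) (v : ℕ) : ℕ := (l.filter (fun w => decide (w < v))).length

/-- sign of a literal -/
def sgn (b : Bool) : ℤ := if b then 1 else -1

/-- the rows for the clause number `k` -/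
def rowC (K : ℕ) (φ : Cnf3) (p : (Lit × Lit × Lit) × ℕ) : List (List (ℕ × ℤ)) :=
  crow K (3 + idx (names φ) p.1.1.1) (3 + idx (names φ) p.1.2.1.1) (3 + idx (names φ) p.1.2.2.1)
    (3 + 3 * φ.length + p.2) (sgn p.1.1.2) (sgn p.1.2.1.2) (sgn p.1.2.2.2)

/-- all rows -/
def rows (K : ℕ) (φ : Cnf3) : List (List (ℕ × ℤ)) := φ.zipIdx.flatMap (rowC K φ)

/-- the number of left variables -/
def nz (φ : Cnf3) : ℕ := 2 + 4 * φ.length

lemma sgn_cases (b : Bool) : sgn b = 1 ∨ sgn b = -1 := by cases b <;> simp [sgn]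

lemma names_length (φ : Cnf3) : (names φ).length = 3 * φ.length := by
  induction φ with
  | nil => rfl
  | cons c φ ih =>
    have : names (c :: φ) = [c.1.1, c.2.1.1, c.2.2.1] ++ names φ := rfl
    rw [this, List.length_append, ih]
    simp; omega

lemma mem_names {φ : Cnf3} {c : Lit × Lit × Lit} (hc : c ∈ φ) :
    c.1.1 ∈ names φ ∧ c.2.1.1 ∈ names φ ∧ c.2.2.1 ∈ names φ := by
  unfold names
  refine ⟨?_, ?_, ?_⟩ <;>
  · rw [List.mem_flatMap]
    exact ⟨c, hc, by simp⟩

lemma idx_lt {l : List ℕ} {v : ℕ} (hv : v ∈ l) : idx l v < l.length := by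
  unfold idx
  have h1 : (l.filter (fun w => decide (w < v))).length ≤ l.length := List.length_filter_le _ _
  refine lt_of_le_of_ne h1 ?_
  intro h
  have h2 := List.filter_sublist.eq_of_length h
  rw [← h2] at hv
  have := (List.mem_filter.1 hv).2
  simp at this

lemma idx_strict {l : List ℕ} {v w : ℕ} (hv : v ∈ l) (h : v < w) : idx l v < idx l w := by
  unfold idx
  have h1 : (l.filter (fun x => decide (x < v))) =
      (l.filter (fun x => decide (x < w))).filter (fun x => decide (x < v)) := by
    rw [List.filter_filter]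
    congr 1
    funext x
    by_cases hx : x < v
    · simp [hx, hx.trans h]
    · simp [hx]
  rw [h1]
  have h2 : v ∈ l.filter (fun x => decide (x < w)) := List.mem_filter.2 ⟨hv, by simpa using h⟩
  refine lt_of_le_of_ne (List.length_filter_le _ _) ?_
  intro h
  have h3 := List.filter_sublist.eq_of_length h
  rw [← h3] at h2
  have := (List.mem_filter.1 h2).2
  simp at this

lemma idx_inj {l : List ℕ} {v w : ℕ} (hv : v ∈ l) (hw : w ∈ l) (h : idx l v = idx l w) :
    v = w := by
  rcases lt_trichotomy v w with h1 | h1 | h1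
  · have := idx_strict hv h1; omega
  · exact h1
  · have := idx_strict hw h1; omega

lemma rows_ok (K : ℕ) (φ : Cnf3) : ∀ s ∈ rows K φ, ∀ e ∈ s, 1 ≤ e.1 ∧ e.1 ≤ nz φ := by
  intro s hs e he
  obtain ⟨p, hp, hs⟩ := List.mem_flatMap.1 hs
  obtain ⟨h1, h2⟩ : p.1 ∈ φ ∧ p.2 < φ.length := by
    obtain ⟨h3, h4, h5⟩ := List.mem_zipIdx hp
    refine ⟨?_, by omega⟩
    rw [h5]
    exact List.getElem_mem _
  obtain ⟨m1, m2, m3⟩ := mem_names h1
  have l1 := idx_lt m1
  have l2 := idx_lt m2
  have l3 := idx_lt m3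
  rw [names_length] at l1 l2 l3
  unfold nz
  simp only [rowC, crow, List.mem_cons, List.not_mem_nil, or_false] at hs
  rcases hs with rfl | rfl | rfl | rfl | rfl | rfl | rfl | rfl | rfl | rfl | rfl | rfl | rfl |
    rfl | rfl | rfl <;>
  · simp only [List.mem_cons, List.not_mem_nil, or_false] at he
    rcases he with rfl | rfl <;> constructor <;> simp only <;> omega

lemma fval_flatMap {α : Type} (l : List α) (f : α → List (List (ℕ × ℤ))) (z : ℕ → ℂ) :
    fval (l.flatMap f) z = (l.map (fun x => fval (f x) z)).sum := by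
  induction l with
  | nil => simp [fval]
  | cons x l ih =>
    rw [List.flatMap_cons, List.map_cons, List.sum_cons, ← ih]
    simp [fval]

/-- the threshold value per clause -/
noncomputable def VV (K : ℕ) : ℝ := 24 * Real.sqrt 2 * K + 8

lemma upper {K : ℕ} (hK : 0 < K) {δ : ℝ} {φ : Cnf3} (hφ : Far3 δ φ) (z : ℕ → ℂ)
    (hz : ∀ j, ‖z j‖ ≤ 1) :
    fval (rows K φ) z ≤ (VV K + 12 * Real.sqrt 2 / K - 4 * δ) * φ.length := by
  set a : ℕ → Bool := fun v => decide (rd (z 1) (z (3 + idx (names φ) v)) ≠ rd (z 1) (z 2)) with ha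
  set B : ℝ := 24 * Real.sqrt 2 * K + 12 * Real.sqrt 2 / K with hB
  have key : ∀ p : (Lit × Lit × Lit) × ℕ, fval (rowC K φ p) z ≤
      B + 4 + (if clVal a p.1 then 4 else 0) := by
    intro p
    have h1 := clause_le hK (3 + idx (names φ) p.1.1.1) (3 + idx (names φ) p.1.2.1.1)
      (3 + idx (names φ) p.1.2.2.1) (3 + 3 * φ.length + p.2) (sgn_cases p.1.1.2)
      (sgn_cases p.1.2.1.2) (sgn_cases p.1.2.2.2) z hz
    refine h1.trans ?_
    have hlit : ∀ (l : Lit), (a l.1 == l.2) = false →
        ((sgn l.2 : ℤ) : ℝ) * rd (z 1) (z (3 + idx (names φ) l.1)) = rd (z 1) (z 2) := by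
      intro l hl
      rw [ha] at hl
      obtain ⟨v, b⟩ := l
      simp only at hl
      have c1 := rd_cases (z 1) (z (3 + idx (names φ) v))
      have c2 := rd_cases (z 1) (z 2)
      cases b
      · have h2 : rd (z 1) (z (3 + idx (names φ) v)) ≠ rd (z 1) (z 2) := by
          by_contra h
          simp [h] at hl
        simp only [sgn]
        rcases c1 with c1 | c1 <;> rcases c2 with c2 | c2 <;> rw [c1, c2] at h2 ⊢ <;>
          first | exact absurd rfl h2 | norm_num
      · have h2 : rd (z 1) (z (3 + idx (names φ) v)) = rd (z 1) (z 2) := by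
          by_contra h
          simp [h] at hl
        simp [sgn, h2]
    have hsr : ∀ (s : ℤ) (x : ℝ), (s = 1 ∨ s = -1) → (x = 1 ∨ x = -1) →
        ((s : ℝ) * x = 1 ∨ (s : ℝ) * x = -1) := by
      intro s x hs hx
      rcases hs with rfl | rfl <;> rcases hx with rfl | rfl <;> norm_num
    by_cases hc : clVal a p.1 = true
    · rw [if_pos hc]
      have h2 := comb_le (hsr _ _ (sgn_cases p.1.1.2) (rd_cases (z 1) (z (3 + idx (names φ) p.1.1.1))))
        (hsr _ _ (sgn_cases p.1.2.1.2) (rd_cases (z 1) (z (3 + idx (names φ) p.1.2.1.1))))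
        (hsr _ _ (sgn_cases p.1.2.2.2) (rd_cases (z 1) (z (3 + idx (names φ) p.1.2.2.1))))
        (rd_cases (z 1) (z 2)) (rd_cases (z 1) (z (3 + 3 * φ.length + p.2)))
      rw [hB]
      linarith
    · rw [if_neg hc]
      have hc' : clVal a p.1 = false := by simpa using hc
      unfold clVal at hc'
      rw [Bool.or_eq_false_iff, Bool.or_eq_false_iff] at hc'
      rw [hlit _ hc'.1, hlit _ hc'.2.1, hlit _ hc'.2.2]
      have h2 := comb_false (rd_cases (z 1) (z 2)) (rd_cases (z 1) (z (3 + 3 * φ.length + p.2)))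
      rw [hB]
      linarith
  have h1 : fval (rows K φ) z ≤ (φ.zipIdx.map (fun p => B + 4 +
      (if clVal a p.1 then (4 : ℝ) else 0))).sum := by
    rw [rows, fval_flatMap]
    exact List.sum_le_sum (fun p _ => key p)
  have h2 : (φ.zipIdx.map (fun p => B + 4 + (if clVal a p.1 then (4 : ℝ) else 0))).sum =
      (B + 4) * φ.length + 4 * ((φ.countP (clVal a) : ℕ) : ℝ) := by
    have h3 : φ.zipIdx.map (fun p => B + 4 + (if clVal a p.1 then (4 : ℝ) else 0)) =
        φ.map (fun c => B + 4 + (if clVal a c then (4 : ℝ) else 0)) := by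
      have h4 : φ.map (fun c => B + 4 + (if clVal a c then (4 : ℝ) else 0)) =
          (φ.zipIdx.map Prod.fst).map (fun c => B + 4 + (if clVal a c then (4 : ℝ) else 0)) := by
        rw [List.zipIdx_map_fst]
      rw [h4, List.map_map]
      rfl
    rw [h3]
    clear_value a B
    clear h3 h1 key hφ ha hB
    induction φ with
    | nil => simp
    | cons c φ ih =>
      rw [List.map_cons, List.sum_cons, ih, List.countP_cons, List.length_cons]
      split_ifs with h <;> push_cast <;> ring
  have h3 := hφ a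
  rw [h2] at h1
  refine h1.trans ?_
  have : VV K + 12 * Real.sqrt 2 / K - 4 * δ = B + 8 - 4 * δ := by rw [hB, VV]; ring
  rw [this]
  nlinarith

lemma lower {K : ℕ} {φ : Cnf3} (hφ : Sat3 φ) : ∃ z : ℕ → ℂ, (∀ j, ‖z j‖ ≤ 1) ∧
    VV K * φ.length ≤ fval (rows K φ) z := by
  classical
  obtain ⟨a, ha⟩ := hφ
  -- signs
  set r : ℕ → ℝ := fun j => if ∃ v ∈ names φ, idx (names φ) v = j ∧ a v = true then 1 else -1
    with hr
  have hrc : ∀ j, r j = 1 ∨ r j = -1 := by intro j; simp only [hr]; split_ifs <;> simp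
  have hrv : ∀ v ∈ names φ, r (idx (names φ) v) = if a v then 1 else -1 := by
    intro v hv
    simp only [hr]
    by_cases h : a v = true
    · rw [if_pos ⟨v, hv, rfl, h⟩, if_pos h]
    · rw [if_neg, if_neg h]
      rintro ⟨w, hw, h1, h2⟩
      rw [idx_inj hw hv h1] at h2
      exact h h2
  set lv : Lit → ℝ := fun l => ((sgn l.2 : ℤ) : ℝ) * r (idx (names φ) l.1) with hlv
  set u : ℕ → ℝ := fun k => if lv (φ.getD k default).2.2 = 1 then -lv (φ.getD k default).1 else -1
    with hu
  have hlvc : ∀ l, lv l = 1 ∨ lv l = -1 := by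
    intro l
    simp only [hlv]
    rcases sgn_cases l.2 with h | h <;> rcases hrc (idx (names φ) l.1) with h' | h' <;>
      rw [h, h'] <;> norm_num
  have huc : ∀ k, u k = 1 ∨ u k = -1 := by
    intro k
    simp only [hu]
    split_ifs
    · rcases hlvc (φ.getD k default).1 with h | h <;> rw [h] <;> norm_num
    · right; rfl
  set s : ℕ → ℝ := fun j => if j = 2 then -1 else if j < 3 + 3 * φ.length then r (j - 3)
    else u (j - 3 - 3 * φ.length) with hs
  have hsc : ∀ j, s j = 1 ∨ s j = -1 := by
    intro j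
    simp only [hs]
    split_ifs
    · right; rfl
    · exact hrc _
    · exact huc _
  set z : ℕ → ℂ := fun j => if j = 1 then 1 else Complex.I * (s j : ℂ) with hz
  have hz1 : z 1 = 1 := by simp [hz]
  have hzj : ∀ j, j ≠ 1 → z j = Complex.I * (s j : ℂ) := by
    intro j hj; simp [hz, hj]
  have hs2 : s 2 = -1 := by simp [hs]
  refine ⟨z, ?_, ?_⟩
  · intro j
    by_cases hj : j = 1
    · rw [hj, hz1]; simp
    · rw [hzj j hj, norm_mul, Complex.norm_I, Complex.norm_real, one_mul]
      rcases hsc j with h | h <;> rw [h] <;> simp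
  · have gadv : ∀ j, j ≠ 1 → ‖z j + z 1‖ + ‖z j - z 1‖ = 2 * Real.sqrt 2 := by
      intro j hj
      rw [hz1, hzj j hj]
      have h1 : ‖Complex.I * (s j : ℂ) + 1‖ = Real.sqrt 2 := by
        rw [Complex.norm_def, Complex.normSq_apply]
        rcases hsc j with h | h <;> rw [h] <;> norm_num
      have h2 : ‖Complex.I * (s j : ℂ) - 1‖ = Real.sqrt 2 := by
        rw [Complex.norm_def, Complex.normSq_apply]
        rcases hsc j with h | h <;> rw [h] <;> norm_num
      rw [h1, h2]; ring
    have pairv : ∀ (x y : ℤ) (i j : ℕ), i ≠ 1 → j ≠ 1 →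
        ‖(x : ℂ) * z i + (y : ℂ) * z j‖ = |(x : ℝ) * s i + (y : ℝ) * s j| := by
      intro x y i j hi hj
      rw [hzj i hi, hzj j hj]
      have : (x : ℂ) * (Complex.I * (s i : ℂ)) + (y : ℂ) * (Complex.I * (s j : ℂ)) =
          Complex.I * ((((x : ℝ) * s i + (y : ℝ) * s j : ℝ)) : ℂ) := by push_cast; ring
      rw [this, norm_mul, Complex.norm_I, one_mul, Complex.norm_real, Real.norm_eq_abs]
    have key : ∀ p ∈ φ.zipIdx, fval (rowC K φ p) z = VV K := by
      rintro ⟨c, k⟩ hp
      obtain ⟨h3, h4, h5⟩ := List.mem_zipIdx hp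
      have hk : k < φ.length := by omega
      have hc : c ∈ φ := by rw [h5]; exact List.getElem_mem _
      have hgetD : φ.getD k default = c := by
        rw [List.getD_eq_getElem?_getD, List.getElem?_eq_getElem hk, Option.getD_some, h5]
        simp
      obtain ⟨m1, m2, m3⟩ := mem_names hc
      have l1 := idx_lt m1
      have l2 := idx_lt m2
      have l3 := idx_lt m3
      rw [names_length] at l1 l2 l3
      have e1 : s (3 + idx (names φ) c.1.1) = r (idx (names φ) c.1.1) := by
        simp only [hs]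
        rw [if_neg (by omega), if_pos (by omega), show 3 + idx (names φ) c.1.1 - 3 =
          idx (names φ) c.1.1 by omega]
      have e2 : s (3 + idx (names φ) c.2.1.1) = r (idx (names φ) c.2.1.1) := by
        simp only [hs]
        rw [if_neg (by omega), if_pos (by omega), show 3 + idx (names φ) c.2.1.1 - 3 =
          idx (names φ) c.2.1.1 by omega]
      have e3 : s (3 + idx (names φ) c.2.2.1) = r (idx (names φ) c.2.2.1) := by
        simp only [hs]
        rw [if_neg (by omega), if_pos (by omega), show 3 + idx (names φ) c.2.2.1 - 3 =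
          idx (names φ) c.2.2.1 by omega]
      have e4 : s (3 + 3 * φ.length + k) = u k := by
        simp only [hs]
        rw [if_neg (by omega), if_neg (by omega), show 3 + 3 * φ.length + k - 3 - 3 * φ.length =
          k by omega]
      unfold rowC
      simp only
      rw [fval_crow, gadv _ (by omega), gadv _ (by omega), gadv _ (by omega), gadv _ (by omega),
        gadv _ (by omega), pairv _ _ _ _ (by omega) (by omega), pairv _ _ _ _ (by omega) (by omega),
        pairv _ _ _ _ (by omega) (by omega), pairv _ _ _ _ (by omega) (by omega),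
        pairv _ _ _ _ (by omega) (by omega), pairv _ _ _ _ (by omega) (by omega), e1, e2, e3, e4,
        hs2]
      have hcl := ha c hc
      unfold clVal at hcl
      have hlit : ∀ l : Lit, l.1 ∈ names φ → (a l.1 == l.2) = true → lv l = 1 := by
        intro l hl h
        simp only [hlv]
        rw [hrv _ hl]
        obtain ⟨v, b⟩ := l
        simp only at h ⊢
        cases b <;> cases hav : a v <;> simp [hav] at h <;> simp [sgn]
      have hor : lv c.1 = 1 ∨ lv c.2.1 = 1 ∨ lv c.2.2 = 1 := by
        rw [Bool.or_eq_true, Bool.or_eq_true] at hcl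
        rcases hcl with h | h | h
        · exact Or.inl (hlit _ m1 h)
        · exact Or.inr (Or.inl (hlit _ m2 h))
        · exact Or.inr (Or.inr (hlit _ m3 h))
      have hcomb := comb_true (hlvc c.1) (hlvc c.2.1) (hlvc c.2.2) hor
      have hu' : u k = if lv c.2.2 = 1 then -lv c.1 else -1 := by
        simp only [hu]
        rw [hgetD]
      rw [← hu'] at hcomb
      have hlv1 : ((sgn c.1.2 : ℤ) : ℝ) * r (idx (names φ) c.1.1) = lv c.1 := rfl
      have hlv2 : ((sgn c.2.1.2 : ℤ) : ℝ) * r (idx (names φ) c.2.1.1) = lv c.2.1 := rfl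
      have hlv3 : ((sgn c.2.2.2 : ℤ) : ℝ) * r (idx (names φ) c.2.2.1) = lv c.2.2 := rfl
      unfold comb at hcomb
      push_cast
      have n1 : -((sgn c.1.2 : ℤ) : ℝ) * r (idx (names φ) c.1.1) = -lv c.1 := by
        rw [← hlv1]; ring
      have n2 : -((sgn c.2.1.2 : ℤ) : ℝ) * r (idx (names φ) c.2.1.1) = -lv c.2.1 := by
        rw [← hlv2]; ring
      have n3 : -((sgn c.2.2.2 : ℤ) : ℝ) * r (idx (names φ) c.2.2.1) = -lv c.2.2 := by
        rw [← hlv3]; ring
      rw [hlv1, hlv2, hlv3, n1, n2, n3]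
      have t1 : |lv c.1 + -lv c.2.1| = |lv c.1 - lv c.2.1| := by rw [sub_eq_add_neg]
      have t2 : |lv c.2.1 + -1 * u k| = |lv c.2.1 - u k| := by congr 1; ring
      have t3 : |1 * u k + -lv c.1| = |u k - lv c.1| := by congr 1; ring
      have t4 : |-1 * u k + -lv c.2.2| = |-u k - lv c.2.2| := by congr 1; ring
      have t5 : |lv c.2.2 + -1 * -1| = |lv c.2.2 - -1| := by congr 1; ring
      have t6 : |1 * (-1 : ℝ) + 1 * u k| = |-1 + u k| := by congr 1; ring
      rw [t1, t2, t3, t4, t5, t6]
      unfold VV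
      linarith
    have h1 : fval (rows K φ) z = VV K * φ.length := by
      rw [rows, fval_flatMap, List.map_congr_left key]
      simp [mul_comm]
    rw [h1]

end Pool.Agent.H688R2.Mu
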