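import Pool.Agent.H688R2.Mu.MatL

set_option autoImplicit false

/-!
# Local analysis of the clause gadget
-/

namespace Pool.Agent.H688R2.Mu

open Pool.Agent.NPC Complex

/-- the rounded sign of `x` relative to `z0` -/
noncomputable def rd (z0 x : ℂ) : ℝ := if 0 ≤ (x * (starRingEnd ℂ) z0).im then 1 else -1

/-- the rounding error -/
noncomputable def dd (z0 x : ℂ) : ℝ := ‖x - Complex.I * (rd z0 x : ℂ) * z0‖

lemma rd_cases (z0 x : ℂ) : rd z0 x = 1 ∨ rd z0 x = -1 := by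
  unfold rd; split_ifs <;> simp

lemma dd_nonneg (z0 x : ℂ) : 0 ≤ dd z0 x := norm_nonneg _

/-- the real inequality behind the basic gadget -/
lemma gad_real {A B re im p q D : ℝ} (hA0 : 0 ≤ A) (hB0 : 0 ≤ B) (hp0 : 0 ≤ p) (hq0 : 0 ≤ q)
    (hp1 : p ≤ 1) (hq1 : q ≤ 1) (hA2 : A ^ 2 = p + q + 2 * re) (hB2 : B ^ 2 = p + q - 2 * re)
    (hpq : re ^ 2 + im ^ 2 = p * q) (hD : D = p + q - 2 * |im|) (hD0 : 0 ≤ D) :
    A + B ≤ 2 * Real.sqrt 2 - D * Real.sqrt 2 / 8 := by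
  have hpq1 : p * q ≤ 1 := by nlinarith
  have him1 : im ^ 2 ≤ 1 := by nlinarith [sq_nonneg re]
  have himle : |im| ≤ 1 := by
    rw [← sq_abs] at him1
    nlinarith [abs_nonneg im]
  have him2 : im ^ 2 ≤ |im| := by
    rw [← sq_abs]
    nlinarith [abs_nonneg im]
  have hsum : (A + B) ^ 2 + (A - B) ^ 2 = 4 * (p + q) := by nlinarith
  have hS8 : (A + B) ^ 2 ≤ 8 := by nlinarith [sq_nonneg (A - B)]
  have hprod : (A - B) * (A + B) = 4 * re := by nlinarith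
  have hT : 2 * re ^ 2 ≤ (A - B) ^ 2 := by
    have h1 : (A - B) ^ 2 * (A + B) ^ 2 = 16 * re ^ 2 := by
      calc (A - B) ^ 2 * (A + B) ^ 2 = ((A - B) * (A + B)) ^ 2 := by ring
        _ = 16 * re ^ 2 := by rw [hprod]; ring
    have h2 := mul_le_mul_of_nonneg_left hS8 (sq_nonneg (A - B))
    linarith
  have h2 : 5 * (p + q) - 2 * (p * q) ≤ 8 := by
    nlinarith [mul_nonneg (sub_nonneg.2 hp1) (sub_nonneg.2 hq1)]
  have hmain : (A + B) ^ 2 ≤ 8 - D := by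
    rw [hD]; linarith
  have hD4 : D ≤ 4 := by
    rw [hD]; linarith [abs_nonneg im]
  have hc : Real.sqrt 2 ^ 2 = 2 := Real.sq_sqrt (by norm_num)
  have hc0 : 0 < Real.sqrt 2 := Real.sqrt_pos.2 (by norm_num)
  have hr : 0 ≤ 2 * Real.sqrt 2 - D * Real.sqrt 2 / 8 := by
    have : D * Real.sqrt 2 ≤ 4 * Real.sqrt 2 := mul_le_mul_of_nonneg_right hD4 hc0.le
    linarith
  have hr2 : (2 * Real.sqrt 2 - D * Real.sqrt 2 / 8) ^ 2 = 8 - D + D ^ 2 / 32 := by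
    calc (2 * Real.sqrt 2 - D * Real.sqrt 2 / 8) ^ 2 = Real.sqrt 2 ^ 2 * (2 - D / 8) ^ 2 := by ring
      _ = _ := by rw [hc]; ring
  have h1 : (A + B) ^ 2 ≤ (2 * Real.sqrt 2 - D * Real.sqrt 2 / 8) ^ 2 := by
    rw [hr2]; linarith [sq_nonneg D]
  exact (pow_le_pow_iff_left₀ (by positivity) hr (by norm_num)).1 h1

/-- the basic gadget -/
lemma gad {z0 x : ℂ} (h0 : ‖z0‖ ≤ 1) (hx : ‖x‖ ≤ 1) :
    ‖x + z0‖ + ‖x - z0‖ ≤ 2 * Real.sqrt 2 - dd z0 x ^ 2 * Real.sqrt 2 / 8 := by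
  have hp' : ‖x‖ ^ 2 = x.re ^ 2 + x.im ^ 2 := by
    rw [← Complex.normSq_eq_norm_sq, Complex.normSq_apply]; ring
  have hq' : ‖z0‖ ^ 2 = z0.re ^ 2 + z0.im ^ 2 := by
    rw [← Complex.normSq_eq_norm_sq, Complex.normSq_apply]; ring
  refine gad_real (p := ‖x‖ ^ 2) (q := ‖z0‖ ^ 2) (re := x.re * z0.re + x.im * z0.im)
    (im := x.im * z0.re - x.re * z0.im) (norm_nonneg _) (norm_nonneg _) (sq_nonneg _)
    (sq_nonneg _) (pow_le_one₀ (norm_nonneg _) hx) (pow_le_one₀ (norm_nonneg _) h0) ?_ ?_ ?_ ?_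
    (sq_nonneg _)
  · rw [← Complex.normSq_eq_norm_sq, Complex.normSq_apply, hp', hq']
    simp only [Complex.add_re, Complex.add_im]; ring
  · rw [← Complex.normSq_eq_norm_sq, Complex.normSq_apply, hp', hq']
    simp only [Complex.sub_re, Complex.sub_im]; ring
  · rw [hp', hq']; ring
  · have him : (x * (starRingEnd ℂ) z0).im = x.im * z0.re - x.re * z0.im := by
      simp [Complex.mul_im]; ring
    have hI : ∀ r : ℝ, (Complex.I * (r : ℂ) * z0).re = -(r * z0.im) ∧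
        (Complex.I * (r : ℂ) * z0).im = r * z0.re := by
      intro r
      constructor
      · simp [Complex.mul_re, Complex.mul_im]
      · simp [Complex.mul_re, Complex.mul_im]
    unfold dd
    rw [← Complex.normSq_eq_norm_sq, Complex.normSq_apply, hp', hq']
    simp only [Complex.sub_re, Complex.sub_im, (hI _).1, (hI _).2]
    unfold rd
    rw [him]
    split_ifs with h
    · rw [abs_of_nonneg h]; ring
    · push Not at h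
      rw [abs_of_neg h]; ring

/-- a weighted error term -/
lemma err {D K : ℝ} (hK : 0 < K) : D - K * (D ^ 2 * Real.sqrt 2 / 8) ≤ Real.sqrt 2 / K := by
  have hc : Real.sqrt 2 ^ 2 = 2 := Real.sq_sqrt (by norm_num)
  have hc0 : 0 < Real.sqrt 2 := Real.sqrt_pos.2 (by norm_num)
  set c := Real.sqrt 2 with hcc
  have h1 : c / K - (D - K * (D ^ 2 * c / 8)) = (K * c / 8) * (D - 2 * c / K) ^ 2 := by
    field_simp
    ring_nf
    rw [show c ^ 3 = 2 * c by rw [pow_succ, hc], hc]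
    ring
  have h2 : 0 ≤ (K * c / 8) * (D - 2 * c / K) ^ 2 := by positivity
  linarith

lemma pair_le {z0 x y : ℂ} (h0 : ‖z0‖ ≤ 1) {a b : ℤ} (ha : a = 1 ∨ a = -1)
    (hb : b = 1 ∨ b = -1) : ‖(a : ℂ) * x + (b : ℂ) * y‖ ≤
      |(a : ℝ) * rd z0 x + (b : ℝ) * rd z0 y| + dd z0 x + dd z0 y := by
  have ha' : ‖(a : ℂ)‖ = 1 := by rcases ha with rfl | rfl <;> simp
  have hb' : ‖(b : ℂ)‖ = 1 := by rcases hb with rfl | rfl <;> simp
  have h1 : (a : ℂ) * x + (b : ℂ) * y =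
      (((a : ℝ) * rd z0 x + (b : ℝ) * rd z0 y : ℝ) : ℂ) * (Complex.I * z0) +
      (a : ℂ) * (x - Complex.I * (rd z0 x : ℂ) * z0) +
      (b : ℂ) * (y - Complex.I * (rd z0 y : ℂ) * z0) := by
    push_cast; ring
  rw [h1]
  refine (norm_add_le _ _).trans (add_le_add ((norm_add_le _ _).trans (add_le_add ?_ ?_)) ?_)
  · rw [norm_mul, norm_mul, Complex.norm_real, Complex.norm_I, one_mul, Real.norm_eq_abs]
    exact mul_le_of_le_one_right (abs_nonneg _) h0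
  · rw [norm_mul, ha', one_mul]; exact le_refl _
  · rw [norm_mul, hb', one_mul]; exact le_refl _

/-- the rows for a clause -/
def crow (K : ℕ) (i1 i2 i3 iu : ℕ) (s1 s2 s3 : ℤ) : List (List (ℕ × ℤ)) :=
  [[(i1, s1), (i2, -s2)], [(i2, s2), (iu, -1)], [(iu, 1), (i1, -s1)],
   [(iu, -1), (i3, -s3)], [(i3, s3), (2, -1)], [(2, 1), (iu, 1)],
   [(i1, 2 * (K : ℤ)), (1, 2 * (K : ℤ))], [(i1, 2 * (K : ℤ)), (1, -(2 * (K : ℤ)))],
   [(i2, 2 * (K : ℤ)), (1, 2 * (K : ℤ))], [(i2, 2 * (K : ℤ)), (1, -(2 * (K : ℤ)))],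
   [(i3, 2 * (K : ℤ)), (1, 2 * (K : ℤ))], [(i3, 2 * (K : ℤ)), (1, -(2 * (K : ℤ)))],
   [(2, 2 * (K : ℤ)), (1, 2 * (K : ℤ))], [(2, 2 * (K : ℤ)), (1, -(2 * (K : ℤ)))],
   [(iu, 4 * (K : ℤ)), (1, 4 * (K : ℤ))], [(iu, 4 * (K : ℤ)), (1, -(4 * (K : ℤ)))]]

/-- the combinatorial value of the clause gadget -/
noncomputable def comb (y1 y2 y3 f u : ℝ) : ℝ :=
  |y1 - y2| + |y2 - u| + |u - y1| + |-u - y3| + |y3 - f| + |f + u|

lemma comb_le {y1 y2 y3 f u : ℝ} (h1 : y1 = 1 ∨ y1 = -1) (h2 : y2 = 1 ∨ y2 = -1)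
    (h3 : y3 = 1 ∨ y3 = -1) (hf : f = 1 ∨ f = -1) (hu : u = 1 ∨ u = -1) :
    comb y1 y2 y3 f u ≤ 8 := by
  unfold comb
  rcases h1 with rfl | rfl <;> rcases h2 with rfl | rfl <;> rcases h3 with rfl | rfl <;>
    rcases hf with rfl | rfl <;> rcases hu with rfl | rfl <;> norm_num [abs_of_pos, abs_of_neg]

lemma comb_false {f u : ℝ} (hf : f = 1 ∨ f = -1) (hu : u = 1 ∨ u = -1) :
    comb f f f f u ≤ 4 := by
  unfold comb
  rcases hf with rfl | rfl <;> rcases hu with rfl | rfl <;> norm_num [abs_of_pos, abs_of_neg]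

lemma comb_true {y1 y2 y3 : ℝ} (h1 : y1 = 1 ∨ y1 = -1) (h2 : y2 = 1 ∨ y2 = -1)
    (h3 : y3 = 1 ∨ y3 = -1) (h : y1 = 1 ∨ y2 = 1 ∨ y3 = 1) :
    comb y1 y2 y3 (-1) (if y3 = 1 then -y1 else -1) = 8 := by
  unfold comb
  rcases h1 with rfl | rfl <;> rcases h2 with rfl | rfl <;> rcases h3 with rfl | rfl
  · norm_num [abs_of_pos, abs_of_neg]
  · norm_num [abs_of_pos, abs_of_neg]
  · norm_num [abs_of_pos, abs_of_neg]
  · norm_num [abs_of_pos, abs_of_neg]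
  · norm_num [abs_of_pos, abs_of_neg]
  · norm_num [abs_of_pos, abs_of_neg]
  · norm_num [abs_of_pos, abs_of_neg]
  · norm_num at h

lemma gad_row (K : ℕ) (x z0 : ℂ) (w : ℕ) :
    ‖(((w : ℤ) * (K : ℤ) : ℤ) : ℂ) * x + (((w : ℤ) * (K : ℤ) : ℤ) : ℂ) * z0‖ +
      ‖(((w : ℤ) * (K : ℤ) : ℤ) : ℂ) * x + ((-((w : ℤ) * (K : ℤ)) : ℤ) : ℂ) * z0‖ =
    (w : ℝ) * K * (‖x + z0‖ + ‖x - z0‖) := by
  have h1 : (((w : ℤ) * (K : ℤ) : ℤ) : ℂ) * x + (((w : ℤ) * (K : ℤ) : ℤ) : ℂ) * z0 =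
      (((w : ℝ) * K : ℝ) : ℂ) * (x + z0) := by push_cast; ring
  have h2 : (((w : ℤ) * (K : ℤ) : ℤ) : ℂ) * x + ((-((w : ℤ) * (K : ℤ)) : ℤ) : ℂ) * z0 =
      (((w : ℝ) * K : ℝ) : ℂ) * (x - z0) := by push_cast; ring
  rw [h1, h2, norm_mul, norm_mul, Complex.norm_real, Real.norm_eq_abs, abs_of_nonneg (by positivity)]
  ring

lemma fval_crow (K : ℕ) (i1 i2 i3 iu : ℕ) (s1 s2 s3 : ℤ) (z : ℕ → ℂ) :
    fval (crow K i1 i2 i3 iu s1 s2 s3) z =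
      (‖(s1 : ℂ) * z i1 + ((-s2 : ℤ) : ℂ) * z i2‖ + ‖(s2 : ℂ) * z i2 + ((-1 : ℤ) : ℂ) * z iu‖ +
       ‖((1 : ℤ) : ℂ) * z iu + ((-s1 : ℤ) : ℂ) * z i1‖ +
       ‖((-1 : ℤ) : ℂ) * z iu + ((-s3 : ℤ) : ℂ) * z i3‖ +
       ‖(s3 : ℂ) * z i3 + ((-1 : ℤ) : ℂ) * z 2‖ + ‖((1 : ℤ) : ℂ) * z 2 + ((1 : ℤ) : ℂ) * z iu‖) +
      2 * K * ((‖z i1 + z 1‖ + ‖z i1 - z 1‖) + (‖z i2 + z 1‖ + ‖z i2 - z 1‖) +
        (‖z i3 + z 1‖ + ‖z i3 - z 1‖) + (‖z 2 + z 1‖ + ‖z 2 - z 1‖)) +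
      4 * K * (‖z iu + z 1‖ + ‖z iu - z 1‖) := by
  have g1 := gad_row K (z i1) (z 1) 2
  have g2 := gad_row K (z i2) (z 1) 2
  have g3 := gad_row K (z i3) (z 1) 2
  have g4 := gad_row K (z 2) (z 1) 2
  have g5 := gad_row K (z iu) (z 1) 4
  simp only [Nat.cast_ofNat] at g1 g2 g3 g4 g5
  simp only [fval, crow, lin, List.map_cons, List.map_nil, List.sum_cons, List.sum_nil, add_zero]
  linarith

lemma clause_le {K : ℕ} (hK : 0 < K) (i1 i2 i3 iu : ℕ) {s1 s2 s3 : ℤ} (h1 : s1 = 1 ∨ s1 = -1)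
    (h2 : s2 = 1 ∨ s2 = -1) (h3 : s3 = 1 ∨ s3 = -1) (z : ℕ → ℂ) (hz : ∀ j, ‖z j‖ ≤ 1) :
    fval (crow K i1 i2 i3 iu s1 s2 s3) z ≤
      comb (s1 * rd (z 1) (z i1)) (s2 * rd (z 1) (z i2)) (s3 * rd (z 1) (z i3))
        (rd (z 1) (z 2)) (rd (z 1) (z iu)) + (24 * Real.sqrt 2 * K + 12 * Real.sqrt 2 / K) := by
  rw [fval_crow]
  have hK' : (0 : ℝ) < K := by exact_mod_cast hK
  have n1 : -s1 = 1 ∨ -s1 = -1 := by rcases h1 with rfl | rfl <;> simp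
  have n2 : -s2 = 1 ∨ -s2 = -1 := by rcases h2 with rfl | rfl <;> simp
  have n3 : -s3 = 1 ∨ -s3 = -1 := by rcases h3 with rfl | rfl <;> simp
  have p1 := pair_le (x := z i1) (y := z i2) (hz 1) h1 n2
  have p2 := pair_le (x := z i2) (y := z iu) (hz 1) h2 (b := -1) (Or.inr rfl)
  have p3 := pair_le (x := z iu) (y := z i1) (hz 1) (a := 1) (Or.inl rfl) n1
  have p4 := pair_le (x := z iu) (y := z i3) (hz 1) (a := -1) (Or.inr rfl) n3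
  have p5 := pair_le (x := z i3) (y := z 2) (hz 1) h3 (b := -1) (Or.inr rfl)
  have p6 := pair_le (x := z 2) (y := z iu) (hz 1) (a := 1) (Or.inl rfl) (b := 1) (Or.inl rfl)
  have e1 := err (D := dd (z 1) (z i1)) hK'
  have e2 := err (D := dd (z 1) (z i2)) hK'
  have e3 := err (D := dd (z 1) (z i3)) hK'
  have e4 := err (D := dd (z 1) (z 2)) hK'
  have e5 := err (D := dd (z 1) (z iu)) hK'
  have q1 := mul_le_mul_of_nonneg_left (gad (hz 1) (hz i1)) hK'.le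
  have q2 := mul_le_mul_of_nonneg_left (gad (hz 1) (hz i2)) hK'.le
  have q3 := mul_le_mul_of_nonneg_left (gad (hz 1) (hz i3)) hK'.le
  have q4 := mul_le_mul_of_nonneg_left (gad (hz 1) (hz 2)) hK'.le
  have q5 := mul_le_mul_of_nonneg_left (gad (hz 1) (hz iu)) hK'.le
  have c1 : |((s1 : ℝ)) * rd (z 1) (z i1) + ((-s2 : ℤ) : ℝ) * rd (z 1) (z i2)| =
      |(s1 : ℝ) * rd (z 1) (z i1) - s2 * rd (z 1) (z i2)| := by
    congr 1; push_cast; ring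
  have c2 : |((s2 : ℝ)) * rd (z 1) (z i2) + ((-1 : ℤ) : ℝ) * rd (z 1) (z iu)| =
      |(s2 : ℝ) * rd (z 1) (z i2) - rd (z 1) (z iu)| := by
    congr 1; push_cast; ring
  have c3 : |((1 : ℤ) : ℝ) * rd (z 1) (z iu) + ((-s1 : ℤ) : ℝ) * rd (z 1) (z i1)| =
      |rd (z 1) (z iu) - (s1 : ℝ) * rd (z 1) (z i1)| := by
    congr 1; push_cast; ring
  have c4 : |((-1 : ℤ) : ℝ) * rd (z 1) (z iu) + ((-s3 : ℤ) : ℝ) * rd (z 1) (z i3)| =
      |-rd (z 1) (z iu) - (s3 : ℝ) * rd (z 1) (z i3)| := by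
    congr 1; push_cast; ring
  have c5 : |(s3 : ℝ) * rd (z 1) (z i3) + ((-1 : ℤ) : ℝ) * rd (z 1) (z 2)| =
      |(s3 : ℝ) * rd (z 1) (z i3) - rd (z 1) (z 2)| := by
    congr 1; push_cast; ring
  have c6 : |((1 : ℤ) : ℝ) * rd (z 1) (z 2) + ((1 : ℤ) : ℝ) * rd (z 1) (z iu)| =
      |rd (z 1) (z 2) + rd (z 1) (z iu)| := by
    congr 1; push_cast; ring
  rw [c1] at p1
  rw [c2] at p2
  rw [c3] at p3
  rw [c4] at p4
  rw [c5] at p5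
  rw [c6] at p6
  unfold comb
  linear_combination p1 + p2 + p3 + p4 + p5 + p6 + 2 * q1 + 2 * q2 + 2 * q3 + 2 * q4 + 4 * q5 +
    2 * e1 + 2 * e2 + 2 * e3 + 2 * e4 + 4 * e5

end Pool.Agent.H688R2.Mu
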