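import Pool.Agent.H688R2.Mu.Defs

set_option autoImplicit false

/-!
# The structured singular value of a cyclic matrix
-/

namespace Pool.Agent.H688R2.Mu

open Pool.Agent.NPC
open scoped Matrix.Norms.L2Operator

/-- the entries of the matrix: `t → rows → z → t` -/
def ent (Nz : ℕ) (R : List (List (ℕ × ℤ))) (p q : ℕ) : ℤ :=
  if p = 0 then (if q ≤ Nz then 0 else 1)
  else if p ≤ Nz then (if q = 0 then 1 else 0)
  else ((R.getD (p - 1 - Nz) []).map (fun e => if e.1 = q then e.2 else 0)).sum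

/-- the instance -/
def inst (Nz : ℕ) (R : List (List (ℕ × ℤ))) : Inst :=
  ((List.range (1 + Nz + R.length)).map (fun p => (List.range (1 + Nz + R.length)).map (fun q =>
    (((ent Nz R p q : ℤ) : ℚ), (0 : ℚ)))), (List.range (1 + Nz + R.length)).map (fun _ => 1))

/-- the linear form of a row -/
noncomputable def lin (s : List (ℕ × ℤ)) (z : ℕ → ℂ) : ℂ :=
  (s.map (fun e => (e.2 : ℂ) * z e.1)).sum

/-- the function to be maximised -/
noncomputable def fval (R : List (List (ℕ × ℤ))) (z : ℕ → ℂ) : ℝ :=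
  (R.map (fun s => ‖lin s z‖)).sum

lemma inst_sum (Nz : ℕ) (R : List (List (ℕ × ℤ))) : (inst Nz R).2.sum = 1 + Nz + R.length := by
  simp [inst]

lemma inst_valid (Nz : ℕ) (R : List (List (ℕ × ℤ))) : Valid (inst Nz R) := by
  refine ⟨?_, ?_, ?_, ?_⟩
  · intro h
    have := congrArg List.length h
    simp [inst] at this
  · intro k hk
    simp only [inst, List.mem_map] at hk
    obtain ⟨_, _, rfl⟩ := hk
    norm_num
  · simp [inst]
  · intro row hrow
    rw [inst_sum]
    simp only [inst, List.mem_map] at hrow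
    obtain ⟨p, -, rfl⟩ := hrow
    simp

lemma mat_apply (Nz : ℕ) (R : List (List (ℕ × ℤ))) (i j : Fin (inst Nz R).2.sum) :
    mat (inst Nz R) i j = ((ent Nz R i j : ℤ) : ℂ) := by
  have hi : (i : ℕ) < 1 + Nz + R.length := lt_of_lt_of_eq i.2 (inst_sum Nz R)
  have hj : (j : ℕ) < 1 + Nz + R.length := lt_of_lt_of_eq j.2 (inst_sum Nz R)
  have h : ((inst Nz R).1.getD i []).getD j (0, 0) = (((ent Nz R i j : ℤ) : ℚ), (0 : ℚ)) := by
    simp only [inst, List.getD_eq_getElem?_getD, List.getElem?_map, List.getElem?_range hi,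
      List.getElem?_range hj, Option.map_some, Option.getD_some]
  unfold mat
  rw [h]
  simp

lemma blk_ones (l : List ℕ) (hl : ∀ k ∈ l, k = 1) : ∀ i < l.length, blk l i = i := by
  induction l with
  | nil => intro i hi; simp at hi
  | cons k l ih =>
    intro i hi
    have hk : k = 1 := hl k List.mem_cons_self
    subst hk
    rcases Nat.eq_zero_or_pos i with rfl | h0
    · simp [blk]
    · rw [blk, if_neg (by omega), ih (fun k hk => hl k (List.mem_cons_of_mem _ hk)) (i - 1)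
        (by simp at hi; omega)]
      omega

lemma isPert_iff (Nz : ℕ) (R : List (List (ℕ × ℤ)))
    (Δ : Matrix (Fin (inst Nz R).2.sum) (Fin (inst Nz R).2.sum) ℂ) :
    IsPert (inst Nz R).2 Δ ↔ (∀ i j, i ≠ j → Δ i j = 0) ∧ ∀ i, ‖Δ i i‖ ≤ 1 := by
  have hblk : ∀ i : Fin (inst Nz R).2.sum, blk (inst Nz R).2 i = i := by
    intro i
    refine blk_ones _ ?_ i ?_
    · intro k hk
      simp only [inst, List.mem_map] at hk
      obtain ⟨_, _, rfl⟩ := hk
      rfl
    · have := lt_of_lt_of_eq i.2 (inst_sum Nz R)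
      simpa [inst] using this
  have hsub : ∀ b : ℕ, Δ.submatrix (fun i : {i : Fin (inst Nz R).2.sum //
      blk (inst Nz R).2 i = b} => i.1) (fun i => i.1) =
      Matrix.diagonal (fun i : {i : Fin (inst Nz R).2.sum // blk (inst Nz R).2 i = b} =>
        Δ i.1 i.1) := by
    intro b
    ext i j
    have hij : i = j := by
      apply Subtype.ext
      apply Fin.ext
      have h1 := i.2
      have h2 := j.2
      rw [hblk] at h1 h2
      omega
    subst hij
    simp
  unfold IsPert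
  constructor
  · rintro ⟨h1, h2⟩
    refine ⟨fun i j hij => h1 i j ?_, fun i => ?_⟩
    · rw [hblk, hblk]
      exact fun h => hij (Fin.ext h)
    · have h3 := h2 i
      rw [hsub, Matrix.l2_opNorm_diagonal] at h3
      exact (norm_le_pi_norm (fun k : {k : Fin (inst Nz R).2.sum //
        blk (inst Nz R).2 k = (i : ℕ)} => Δ k.1 k.1) ⟨i, hblk i⟩).trans h3
  · rintro ⟨h1, h2⟩
    refine ⟨fun i j hij => h1 i j ?_, fun b => ?_⟩
    · rintro rfl
      exact hij rfl
    · rw [hsub, Matrix.l2_opNorm_diagonal, pi_norm_le_iff_of_nonneg zero_le_one]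
      exact fun i => h2 i.1

/-- action of the matrix on vectors, as functions on `ℕ` -/
noncomputable def act (Nz : ℕ) (R : List (List (ℕ × ℤ))) (x : ℕ → ℂ) (p : ℕ) : ℂ :=
  ∑ q ∈ Finset.range (1 + Nz + R.length), ((ent Nz R p q : ℤ) : ℂ) * x q

lemma act_zero (Nz : ℕ) (R : List (List (ℕ × ℤ))) (x : ℕ → ℂ) :
    act Nz R x 0 = ∑ r ∈ Finset.range R.length, x (1 + Nz + r) := by
  unfold act
  rw [Finset.sum_range_add]
  have h1 : ∑ q ∈ Finset.range (1 + Nz), ((ent Nz R 0 q : ℤ) : ℂ) * x q = 0 := by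
    apply Finset.sum_eq_zero
    intro q hq
    rw [Finset.mem_range] at hq
    simp [ent, show q ≤ Nz by omega]
  rw [h1, zero_add]
  apply Finset.sum_congr rfl
  intro r _
  simp [ent, show ¬ (1 + Nz + r ≤ Nz) by omega]

lemma act_mid (Nz : ℕ) (R : List (List (ℕ × ℤ))) (x : ℕ → ℂ) {p : ℕ} (h1 : 1 ≤ p)
    (h2 : p ≤ Nz) : act Nz R x p = x 0 := by
  unfold act
  have : ∀ q, ((ent Nz R p q : ℤ) : ℂ) * x q = if q = 0 then x q else 0 := by
    intro q
    simp only [ent, if_neg (show ¬ p = 0 by omega), if_pos h2]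
    split_ifs <;> simp
  simp only [this]
  rw [Finset.sum_ite_eq' (Finset.range (1 + Nz + R.length)) 0 x]
  simp

lemma act_row (Nz : ℕ) (R : List (List (ℕ × ℤ))) (hR : ∀ s ∈ R, ∀ e ∈ s, e.1 ≤ Nz) (x : ℕ → ℂ)
    {r : ℕ} (hr : r < R.length) : act Nz R x (1 + Nz + r) = lin R[r] x := by
  have hget : R.getD (1 + Nz + r - 1 - Nz) [] = R[r] := by
    rw [show 1 + Nz + r - 1 - Nz = r by omega, List.getD_eq_getElem?_getD,
      List.getElem?_eq_getElem hr, Option.getD_some]
  have key : ∀ s : List (ℕ × ℤ), (∀ e ∈ s, e.1 < 1 + Nz + R.length) →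
      ∑ q ∈ Finset.range (1 + Nz + R.length),
        ((((s.map (fun e => if e.1 = q then e.2 else 0)).sum : ℤ)) : ℂ) * x q = lin s x := by
    intro s
    induction s with
    | nil => intro _; simp [lin]
    | cons e s ih =>
      intro hs
      have h1 := ih (fun e he => hs e (List.mem_cons_of_mem _ he))
      simp only [List.map_cons, List.sum_cons, Int.cast_add, add_mul, Finset.sum_add_distrib]
      rw [h1]
      have h2 : ∀ q, ((((if e.1 = q then e.2 else 0) : ℤ)) : ℂ) * x q =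
          if e.1 = q then (e.2 : ℂ) * x e.1 else 0 := by
        intro q
        split_ifs with h
        · rw [h]
        · simp
      simp only [h2]
      rw [Finset.sum_ite_eq (Finset.range (1 + Nz + R.length)) e.1 (fun _ => (e.2 : ℂ) * x e.1),
        if_pos (Finset.mem_range.2 (hs e List.mem_cons_self))]
      simp [lin]
  unfold act
  have h3 : ∀ q, ent Nz R (1 + Nz + r) q =
      ((R[r]).map (fun e => if e.1 = q then e.2 else 0)).sum := by
    intro q
    rw [ent, if_neg (by omega), if_neg (by omega), hget]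
  simp only [h3]
  refine key R[r] ?_
  intro e he
  have := hR _ (List.getElem_mem hr) e he
  omega

lemma mulVec_eq (Nz : ℕ) (R : List (List (ℕ × ℤ))) (x : ℕ → ℂ)
    (i : Fin (inst Nz R).2.sum) :
    (Matrix.mulVec (mat (inst Nz R)) (fun j => x j)) i = act Nz R x i := by
  rw [Matrix.mulVec, dotProduct]
  simp only [mat_apply]
  unfold act
  rw [← inst_sum Nz R]
  exact Fin.sum_univ_eq_sum_range (fun q => ((ent Nz R i q : ℤ) : ℂ) * x q) _

lemma fval_eq (R : List (List (ℕ × ℤ))) (z : ℕ → ℂ) :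
    fval R z = ∑ r ∈ Finset.range R.length, ‖lin (R.getD r []) z‖ := by
  unfold fval
  rw [← Fin.sum_univ_eq_sum_range (fun r => ‖lin (R.getD r []) z‖), ← List.sum_ofFn]
  congr 1
  apply List.ext_getElem
  · simp
  · intro i h1 h2
    simp only [List.length_map] at h1
    simp [List.getD_eq_getElem?_getD]

/-- upper bound -/
lemma det_ne_zero (Nz : ℕ) (R : List (List (ℕ × ℤ))) (hR : ∀ s ∈ R, ∀ e ∈ s, 1 ≤ e.1 ∧ e.1 ≤ Nz)
    {U ρ : ℝ} (hU : ∀ z : ℕ → ℂ, (∀ j, ‖z j‖ ≤ 1) → fval R z ≤ U) (hρ : 0 < ρ) (hρU : U < ρ ^ 3)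
    (Δ : Matrix (Fin (inst Nz R).2.sum) (Fin (inst Nz R).2.sum) ℂ)
    (hΔ : IsPert (inst Nz R).2 Δ) :
    (1 - ((ρ⁻¹ : ℝ) : ℂ) • (Δ * mat (inst Nz R))).det ≠ 0 := by
  intro hdet
  obtain ⟨v, hv0, hv⟩ := Matrix.exists_mulVec_eq_zero_iff.2 hdet
  rw [isPert_iff] at hΔ
  obtain ⟨hd1, hd2⟩ := hΔ
  have hnN : (inst Nz R).2.sum = 1 + Nz + R.length := inst_sum Nz R
  set x : ℕ → ℂ := fun k => if h : k < (inst Nz R).2.sum then v ⟨k, h⟩ else 0 with hx
  set d : ℕ → ℂ := fun k => if h : k < (inst Nz R).2.sum then Δ ⟨k, h⟩ ⟨k, h⟩ else 0 with hd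
  have hdn : ∀ k, ‖d k‖ ≤ 1 := by
    intro k
    simp only [hd]
    split_ifs with h
    · exact hd2 _
    · simp
  have hvx : v = fun j : Fin (inst Nz R).2.sum => x j := by
    funext j
    simp [hx]
  have hΔd : Δ = Matrix.diagonal (fun i : Fin (inst Nz R).2.sum => d i) := by
    ext i j
    by_cases hij : i = j
    · subst hij
      simp [hd]
    · rw [hd1 i j hij, Matrix.diagonal_apply_ne _ hij]
  have heq : ∀ k, k < (inst Nz R).2.sum → x k = ((ρ⁻¹ : ℝ) : ℂ) * (d k * act Nz R x k) := by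
    intro k hk
    have h1 := congrFun hv ⟨k, hk⟩
    rw [Matrix.sub_mulVec, Matrix.one_mulVec, Matrix.smul_mulVec, ← Matrix.mulVec_mulVec, hΔd,
      hvx] at h1
    simp only [Pi.sub_apply, Pi.smul_apply, Pi.zero_apply, Matrix.mulVec_diagonal,
      smul_eq_mul] at h1
    rw [mulVec_eq] at h1
    exact sub_eq_zero.1 h1
  have hR' : ∀ s ∈ R, ∀ e ∈ s, e.1 ≤ Nz := fun s hs e he => (hR s hs e he).2
  have e0 := heq 0 (by omega)
  rw [act_zero] at e0
  have emid : ∀ k, 1 ≤ k → k ≤ Nz → x k = ((ρ⁻¹ : ℝ) : ℂ) * (d k * x 0) := by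
    intro k h1 h2
    have := heq k (by omega)
    rwa [act_mid Nz R x h1 h2] at this
  have erow : ∀ r, r < R.length → x (1 + Nz + r) =
      ((ρ⁻¹ : ℝ) : ℂ) ^ 2 * d (1 + Nz + r) * lin (R.getD r []) d * x 0 := by
    intro r hr
    have h1 := heq (1 + Nz + r) (by omega)
    rw [act_row Nz R hR' x hr] at h1
    have h2 : ∀ s : List (ℕ × ℤ), (∀ e ∈ s, 1 ≤ e.1 ∧ e.1 ≤ Nz) →
        lin s x = ((ρ⁻¹ : ℝ) : ℂ) * lin s d * x 0 := by
      intro s
      induction s with
      | nil => intro _; simp [lin]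
      | cons e s ih =>
        intro hs
        have h3 := ih (fun e he => hs e (List.mem_cons_of_mem _ he))
        have h4 := hs e List.mem_cons_self
        simp only [lin, List.map_cons, List.sum_cons] at h3 ⊢
        rw [h3, emid e.1 h4.1 h4.2]
        ring
    rw [h1, h2 _ (hR _ (List.getElem_mem hr)), List.getD_eq_getElem?_getD,
      List.getElem?_eq_getElem hr, Option.getD_some]
    ring
  have hx0 : x 0 = 0 := by
    by_contra hne
    have h1 : (1 : ℂ) = ((ρ⁻¹ : ℝ) : ℂ) ^ 3 * (d 0 * ∑ r ∈ Finset.range R.length,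
        d (1 + Nz + r) * lin (R.getD r []) d) := by
      have h2 : x 0 * 1 = x 0 * (((ρ⁻¹ : ℝ) : ℂ) ^ 3 * (d 0 * ∑ r ∈ Finset.range R.length,
          d (1 + Nz + r) * lin (R.getD r []) d)) := by
        have h3 : ∑ r ∈ Finset.range R.length, x (1 + Nz + r) =
            ((ρ⁻¹ : ℝ) : ℂ) ^ 2 * x 0 * ∑ r ∈ Finset.range R.length,
              d (1 + Nz + r) * lin (R.getD r []) d := by
          rw [Finset.mul_sum]
          apply Finset.sum_congr rfl
          intro r hr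
          rw [erow r (Finset.mem_range.1 hr)]
          ring
        rw [h3] at e0
        calc x 0 * 1 = x 0 := mul_one _
          _ = _ := e0
          _ = _ := by ring
      exact mul_left_cancel₀ hne h2
    have h2 : ‖∑ r ∈ Finset.range R.length, d (1 + Nz + r) * lin (R.getD r []) d‖ ≤ U := by
      refine (norm_sum_le _ _).trans ?_
      refine le_trans (Finset.sum_le_sum (g := fun r => ‖lin (R.getD r []) d‖) ?_) ?_
      · intro r _
        rw [norm_mul]
        exact mul_le_of_le_one_left (norm_nonneg _) (hdn _)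
      · rw [← fval_eq]
        exact hU d hdn
    have h3 : (1 : ℝ) ≤ (ρ⁻¹) ^ 3 * U := by
      have h4 := congrArg norm h1
      rw [norm_one, norm_mul, norm_mul, norm_pow, Complex.norm_real, Real.norm_eq_abs,
        abs_of_pos (inv_pos.2 hρ)] at h4
      rw [h4]
      have h5 : ‖d 0‖ * ‖∑ r ∈ Finset.range R.length, d (1 + Nz + r) * lin (R.getD r []) d‖ ≤ U :=
        (mul_le_of_le_one_left (norm_nonneg _) (hdn _)).trans h2
      exact mul_le_mul_of_nonneg_left h5 (by positivity)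
    rw [inv_pow, ← div_eq_inv_mul, le_div_iff₀ (by positivity)] at h3
    linarith
  apply hv0
  rw [hvx]
  funext j
  have hj : (j : ℕ) < (inst Nz R).2.sum := j.2
  show x j = 0
  rcases Nat.eq_zero_or_pos (j : ℕ) with h0 | h0
  · rw [h0, hx0]
  · by_cases h1 : (j : ℕ) ≤ Nz
    · rw [emid _ h0 h1, hx0]; simp
    · obtain ⟨r, hr⟩ : ∃ r, (j : ℕ) = 1 + Nz + r := ⟨j - 1 - Nz, by omega⟩
      rw [hr, erow r (by omega), hx0]; simp

/-- lower bound -/
lemma exists_det_zero (Nz : ℕ) (R : List (List (ℕ × ℤ)))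
    (hR : ∀ s ∈ R, ∀ e ∈ s, 1 ≤ e.1 ∧ e.1 ≤ Nz) {L ρ : ℝ} (hL : 0 < L) (z : ℕ → ℂ)
    (hz : ∀ j, ‖z j‖ ≤ 1) (hzL : L ≤ fval R z) (hρ : 0 < ρ) (hρL : ρ ^ 3 ≤ L) :
    ∃ Δ : Matrix (Fin (inst Nz R).2.sum) (Fin (inst Nz R).2.sum) ℂ, IsPert (inst Nz R).2 Δ ∧
      (1 - ((ρ⁻¹ : ℝ) : ℂ) • (Δ * mat (inst Nz R))).det = 0 := by
  have hnN : (inst Nz R).2.sum = 1 + Nz + R.length := inst_sum Nz R
  have hF : 0 < fval R z := hL.trans_le hzL
  -- phases
  set w : ℕ → ℂ := fun r => (starRingEnd ℂ) (lin (R.getD r []) z) /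
    ((‖lin (R.getD r []) z‖ : ℝ) : ℂ) with hw
  have hw1 : ∀ r, ‖w r‖ ≤ 1 := by
    intro r
    simp only [hw]
    rw [norm_div, RCLike.norm_conj, Complex.norm_real, norm_norm]
    exact div_self_le_one _
  have hw2 : ∀ r, w r * lin (R.getD r []) z = ((‖lin (R.getD r []) z‖ : ℝ) : ℂ) := by
    intro r
    simp only [hw]
    by_cases h0 : lin (R.getD r []) z = 0
    · rw [h0]; simp
    · have h1 : ((‖lin (R.getD r []) z‖ : ℝ) : ℂ) ≠ 0 := by
        rw [Ne, Complex.ofReal_eq_zero]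
        exact norm_ne_zero_iff.2 h0
      rw [div_mul_eq_mul_div, div_eq_iff h1, mul_comm, Complex.mul_conj, Complex.normSq_eq_norm_sq]
      push_cast
      ring
  set t : ℝ := ρ ^ 3 / fval R z with ht
  have ht1 : |t| ≤ 1 := by
    rw [abs_of_pos (by positivity), ht, div_le_one hF]
    linarith
  set d : ℕ → ℂ := fun k => if k = 0 then (t : ℂ) else if k ≤ Nz then z k else w (k - 1 - Nz)
    with hd
  have hdn : ∀ k, ‖d k‖ ≤ 1 := by
    intro k
    simp only [hd]
    split_ifs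
    · rw [Complex.norm_real]; exact ht1
    · exact hz k
    · exact hw1 _
  have hr0 : ((ρ⁻¹ : ℝ) : ℂ) ≠ 0 := by
    rw [Ne, Complex.ofReal_eq_zero]
    exact (inv_pos.2 hρ).ne'
  set x : ℕ → ℂ := fun k => if k = 0 then 1 else if k ≤ Nz then ((ρ⁻¹ : ℝ) : ℂ) * z k
    else ((ρ⁻¹ : ℝ) : ℂ) ^ 2 * (w (k - 1 - Nz) * lin (R.getD (k - 1 - Nz) []) z) with hx
  have hR' : ∀ s ∈ R, ∀ e ∈ s, e.1 ≤ Nz := fun s hs e he => (hR s hs e he).2
  have heq : ∀ k, k < (inst Nz R).2.sum → x k = ((ρ⁻¹ : ℝ) : ℂ) * (d k * act Nz R x k) := by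
    intro k hk
    rcases Nat.eq_zero_or_pos k with h0 | h0
    · subst h0
      rw [act_zero]
      have h1 : ∑ r ∈ Finset.range R.length, x (1 + Nz + r) =
          ((ρ⁻¹ : ℝ) : ℂ) ^ 2 * ((fval R z : ℝ) : ℂ) := by
        rw [fval_eq, Complex.ofReal_sum, Finset.mul_sum]
        apply Finset.sum_congr rfl
        intro r _
        simp only [hx]
        rw [if_neg (by omega), if_neg (by omega), show 1 + Nz + r - 1 - Nz = r by omega, hw2]
      rw [h1]
      simp only [hx, hd, if_true, ht]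
      have h2 : ((fval R z : ℝ) : ℂ) ≠ 0 := by
        rw [Ne, Complex.ofReal_eq_zero]; exact hF.ne'
      have h3 : ((ρ : ℝ) : ℂ) ≠ 0 := by
        rw [Ne, Complex.ofReal_eq_zero]; exact hρ.ne'
      push_cast
      field_simp
    · by_cases h1 : k ≤ Nz
      · rw [act_mid Nz R x h0 h1]
        simp only [hx, hd]
        rw [if_neg (by omega), if_pos h1, if_neg (by omega), if_pos h1]
        simp
      · obtain ⟨r, rfl⟩ : ∃ r, k = 1 + Nz + r := ⟨k - 1 - Nz, by omega⟩
        have hr : r < R.length := by omega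
        rw [act_row Nz R hR' x hr]
        have h2 : ∀ s : List (ℕ × ℤ), (∀ e ∈ s, 1 ≤ e.1 ∧ e.1 ≤ Nz) →
            lin s x = ((ρ⁻¹ : ℝ) : ℂ) * lin s z := by
          intro s
          induction s with
          | nil => intro _; simp [lin]
          | cons e s ih =>
            intro hs
            have h3 := ih (fun e he => hs e (List.mem_cons_of_mem _ he))
            have h4 := hs e List.mem_cons_self
            simp only [lin, List.map_cons, List.sum_cons] at h3 ⊢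
            rw [h3]
            simp only [hx]
            rw [if_neg (show ¬ e.1 = 0 by omega), if_pos h4.2]
            ring
        rw [h2 _ (hR _ (List.getElem_mem hr))]
        simp only [hx, hd]
        rw [if_neg (by omega), if_neg (by omega), if_neg (by omega), if_neg (by omega),
          show 1 + Nz + r - 1 - Nz = r by omega, List.getD_eq_getElem?_getD,
          List.getElem?_eq_getElem hr, Option.getD_some]
        ring
  refine ⟨Matrix.diagonal (fun i : Fin (inst Nz R).2.sum => d i), ?_, ?_⟩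
  · rw [isPert_iff]
    refine ⟨fun i j hij => Matrix.diagonal_apply_ne _ hij, fun i => ?_⟩
    rw [Matrix.diagonal_apply_eq]
    exact hdn i
  · rw [← Matrix.exists_mulVec_eq_zero_iff]
    refine ⟨fun j : Fin (inst Nz R).2.sum => x j, ?_, ?_⟩
    · intro h
      have h1 := congrFun h ⟨0, by omega⟩
      simp [hx] at h1
    · funext i
      rw [Matrix.sub_mulVec, Matrix.one_mulVec, Matrix.smul_mulVec, ← Matrix.mulVec_mulVec]
      simp only [Pi.sub_apply, Pi.smul_apply, Pi.zero_apply, Matrix.mulVec_diagonal, smul_eq_mul]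
      rw [mulVec_eq, ← heq i i.2, sub_self]

lemma muI_cube_le (Nz : ℕ) (R : List (List (ℕ × ℤ)))
    (hR : ∀ s ∈ R, ∀ e ∈ s, 1 ≤ e.1 ∧ e.1 ≤ Nz) {U : ℝ}
    (hU : ∀ z : ℕ → ℂ, (∀ j, ‖z j‖ ≤ 1) → fval R z ≤ U) : muI (inst Nz R) ^ 3 ≤ U := by
  have hU0 : 0 ≤ U := by
    refine le_trans ?_ (hU (fun _ => 0) (by simp))
    unfold fval
    apply List.sum_nonneg
    intro a ha
    obtain ⟨s, -, rfl⟩ := List.mem_map.1 ha
    exact norm_nonneg _
  have hle : ∀ ρ : ℝ, 0 < ρ → U < ρ ^ 3 → muI (inst Nz R) ≤ ρ := by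
    intro ρ h1 h2
    refine csInf_le ⟨0, fun a ha => ha.1.le⟩ ⟨h1, fun Δ hΔ => ?_⟩
    exact det_ne_zero Nz R hR hU h1 h2 Δ hΔ
  by_contra hcon
  push Not at hcon
  obtain ⟨t, ht1, ht2⟩ := exists_between hcon
  have ht0 : 0 < t := hU0.trans_lt ht1
  have h1 : (t ^ ((3 : ℝ)⁻¹)) ^ 3 = t := by
    rw [← Real.rpow_natCast, ← Real.rpow_mul ht0.le]
    norm_num
  have h2 := hle (t ^ ((3 : ℝ)⁻¹)) (Real.rpow_pos_of_pos ht0 _) (by rw [h1]; exact ht1)
  have h3 : (0 : ℝ) ≤ muI (inst Nz R) := Real.sInf_nonneg (fun a ha => ha.1.le)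
  have h4 := pow_le_pow_left₀ h3 h2 3
  rw [h1] at h4
  linarith

lemma le_muI_cube (Nz : ℕ) (R : List (List (ℕ × ℤ)))
    (hR : ∀ s ∈ R, ∀ e ∈ s, 1 ≤ e.1 ∧ e.1 ≤ Nz) {L U : ℝ} (hL : 0 < L)
    (hU : ∀ z : ℕ → ℂ, (∀ j, ‖z j‖ ≤ 1) → fval R z ≤ U) (z : ℕ → ℂ)
    (hz : ∀ j, ‖z j‖ ≤ 1) (hzL : L ≤ fval R z) : L ≤ muI (inst Nz R) ^ 3 := by
  have h1 : (L ^ ((3 : ℝ)⁻¹)) ^ 3 = L := by
    rw [← Real.rpow_natCast, ← Real.rpow_mul hL.le]
    norm_num
  have h2 : L ^ ((3 : ℝ)⁻¹) ≤ muI (inst Nz R) := by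
    refine le_csInf ?_ ?_
    · refine ⟨max U 1 + 1, by positivity, fun Δ hΔ => ?_⟩
      refine det_ne_zero Nz R hR hU (by positivity) ?_ Δ hΔ
      have h3 : (1 : ℝ) ≤ max U 1 := le_max_right _ _
      have h4 : U ≤ max U 1 := le_max_left _ _
      nlinarith [sq_nonneg (max U 1), mul_nonneg (zero_le_one.trans h3) (zero_le_one.trans h3)]
    · rintro ρ ⟨hρ, hρ2⟩
      by_contra hcon
      push Not at hcon
      have h3 : ρ ^ 3 ≤ L := by
        have := pow_le_pow_left₀ hρ.le hcon.le 3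
        rwa [h1] at this
      obtain ⟨Δ, hΔ, hdet⟩ := exists_det_zero Nz R hR hL z hz hzL hρ h3
      exact hρ2 Δ hΔ hdet
  have h3 := pow_le_pow_left₀ (Real.rpow_nonneg hL.le _) h2 3
  rwa [h1] at h3

end Pool.Agent.H688R2.Mu
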