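import Pool.Agent.H688R2.Mu.Glob
import Pool.Agent.H569R2.Approx
import Pool.Agent.H671R2.PolyAuto

set_option autoImplicit false

/-!
# Polynomial time of the reduction
-/

namespace Pool.Agent.H688R2.Mu

open Pool.Agent.NPC

variable {α : Type} [TEnc α]

theorem p_intNeg {z : α → ℤ} (hz : Poly z) : Poly (fun a => decide (z a < 0)) :=
  Poly.of_toT ((Poly.hd (Poly.toT' hz)).congr fun _ => rfl)

theorem p_natAbs {z : α → ℤ} (hz : Poly z) : Poly (fun a => (z a).natAbs) :=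
  Poly.of_toT ((Poly.tl (Poly.toT' hz)).congr fun _ => rfl)

theorem p_intSub {m n : α → ℕ} (hm : Poly m) (hn : Poly n) :
    Poly (fun a => ((m a : ℕ) : ℤ) - ((n a : ℕ) : ℤ)) := by
  refine Poly.of_toT ((Poly.toT' (Poly.pair (Poly.decide_lt hm hn)
    (Poly.ite (p := fun a => m a < n a) (Poly.decide_lt hm hn) (Poly.sub hn hm)
      (Poly.sub hm hn)))).congr fun a => ?_)
  change toT (decide (m a < n a), if m a < n a then n a - m a else m a - n a) =
    toT (decide (((m a : ℕ) : ℤ) - ((n a : ℕ) : ℤ) < 0), (((m a : ℕ) : ℤ) - ((n a : ℕ) : ℤ)).natAbs)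
  congr 1
  by_cases h : m a < n a
  · rw [if_pos h]
    ext1
    · simp only [decide_eq_decide]; omega
    · simp only; omega
  · rw [if_neg h]
    ext1
    · simp only [decide_eq_decide]; omega
    · simp only; omega

theorem p_intCast {z : α → ℤ} (hz : Poly z) : Poly (fun a => ((z a : ℤ) : ℚ)) := by
  refine Poly.of_toT ((Poly.toT' (Poly.pair hz (NPC.Poly.const 1))).congr fun a => ?_)
  change toT (z a, 1) = toT (((z a : ℤ) : ℚ).num, ((z a : ℤ) : ℚ).den)
  simp

/-- positive part -/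
def ppos (s : List (ℕ × ℤ)) (q : ℕ) : ℕ :=
  (s.map (fun e => if decide (e.1 = q) && !decide (e.2 < 0) then e.2.natAbs else 0)).sum

/-- negative part -/
def pneg (s : List (ℕ × ℤ)) (q : ℕ) : ℕ :=
  (s.map (fun e => if decide (e.1 = q) && decide (e.2 < 0) then e.2.natAbs else 0)).sum

lemma row_eq (s : List (ℕ × ℤ)) (q : ℕ) :
    (s.map (fun e => if e.1 = q then e.2 else 0)).sum = ((ppos s q : ℕ) : ℤ) - (pneg s q : ℕ) := by
  induction s with
  | nil => simp [ppos, pneg]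
  | cons e s ih =>
    simp only [ppos, pneg, List.map_cons, List.sum_cons] at ih ⊢
    rw [ih]
    by_cases h1 : e.1 = q
    · by_cases h2 : e.2 < 0
      · simp [h1, h2, abs_of_neg h2]; ring
      · have h3 : 0 ≤ e.2 := not_lt.1 h2
        simp [h1, h2, abs_of_nonneg h3]; ring
    · simp [h1]

theorem p_ppos {s : α → List (ℕ × ℤ)} {q : α → ℕ} (hs : Poly s) (hq : Poly q) :
    Poly (fun a => ppos (s a) (q a)) := by
  unfold ppos
  refine Poly.sum (NPC.Poly.map (F := fun a (e : ℕ × ℤ) =>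
    if decide (e.1 = q a) && !decide (e.2 < 0) then e.2.natAbs else 0) hs ?_)
  have he : Poly (fun x : α × (ℕ × ℤ) => x.2) := Poly.snd Poly.id
  have hq' := hq.comp (Poly.fst (α := α × (ℕ × ℤ)) Poly.id)
  exact (Poly.cond (Poly.and (Poly.decide_eq (Poly.fst he) hq')
    (Poly.not (p_intNeg (Poly.snd he)))) (p_natAbs (Poly.snd he)) (NPC.Poly.const 0)).congr
    fun x => by cases (decide (x.2.1 = q x.1) && !decide (x.2.2 < 0)) <;> rfl

theorem p_pneg {s : α → List (ℕ × ℤ)} {q : α → ℕ} (hs : Poly s) (hq : Poly q) :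
    Poly (fun a => pneg (s a) (q a)) := by
  unfold pneg
  refine Poly.sum (NPC.Poly.map (F := fun a (e : ℕ × ℤ) =>
    if decide (e.1 = q a) && decide (e.2 < 0) then e.2.natAbs else 0) hs ?_)
  have he : Poly (fun x : α × (ℕ × ℤ) => x.2) := Poly.snd Poly.id
  have hq' := hq.comp (Poly.fst (α := α × (ℕ × ℤ)) Poly.id)
  exact (Poly.cond (Poly.and (Poly.decide_eq (Poly.fst he) hq') (p_intNeg (Poly.snd he)))
    (p_natAbs (Poly.snd he)) (NPC.Poly.const 0)).congr
    fun x => by cases (decide (x.2.1 = q x.1) && decide (x.2.2 < 0)) <;> rfl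

theorem p_ent {Nz p q : α → ℕ} {R : α → List (List (ℕ × ℤ))} (hN : Poly Nz) (hR : Poly R)
    (hp : Poly p) (hq : Poly q) : Poly (fun a => ent (Nz a) (R a) (p a) (q a)) := by
  have h0 : Poly (fun _ : α => (0 : ℕ)) := NPC.Poly.const 0
  have z0 : Poly (fun _ : α => (0 : ℤ)) := NPC.Poly.const 0
  have z1 : Poly (fun _ : α => (1 : ℤ)) := NPC.Poly.const 1
  have hg : Poly (fun a => (R a).getD (p a - 1 - Nz a) []) :=
    Poly.getD hR (Poly.sub (Poly.sub hp (NPC.Poly.const 1)) hN) (NPC.Poly.const [])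
  have h1 := p_intSub (p_ppos hg hq) (p_pneg hg hq)
  have h2 := Poly.ite (p := fun a => p a = 0) (Poly.decide_eq hp h0)
    (Poly.ite (p := fun a => q a ≤ Nz a) (Poly.decide_le hq hN) z0 z1)
    (Poly.ite (p := fun a => p a ≤ Nz a) (Poly.decide_le hp hN)
      (Poly.ite (p := fun a => q a = 0) (Poly.decide_eq hq h0) z1 z0) h1)
  exact h2.congr fun a => by
    unfold ent
    rw [row_eq]

theorem p_inst {Nz : α → ℕ} {R : α → List (List (ℕ × ℤ))} (hN : UPoly Nz) (hR : Poly R) :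
    Poly (fun a => inst (Nz a) (R a)) := by
  have hL : UPoly (fun a => 1 + Nz a + (R a).length) :=
    UPoly.add (UPoly.add (UPoly.const 1) hN) (UPoly.length hR)
  have hr := hL.range
  unfold inst
  refine Poly.pair ?_ (NPC.Poly.map (F := fun _ _ => 1) hr (NPC.Poly.const 1))
  refine NPC.Poly.map (F := fun a p => (List.range (1 + Nz a + (R a).length)).map (fun q =>
    (((ent (Nz a) (R a) p q : ℤ) : ℚ), (0 : ℚ)))) hr ?_
  have f1 : Poly (fun x : α × ℕ => x.1) := Poly.fst Poly.id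
  refine NPC.Poly.map (F := fun (x : α × ℕ) q =>
    (((ent (Nz x.1) (R x.1) x.2 q : ℤ) : ℚ), (0 : ℚ))) (hr.comp f1) ?_
  have f2 : Poly (fun x : (α × ℕ) × ℕ => x.1.1) := Poly.fst (Poly.fst Poly.id)
  exact Poly.pair (p_intCast (p_ent (hN.toPoly.comp f2) (hR.comp f2)
    (Poly.snd (Poly.fst Poly.id)) (Poly.snd Poly.id))) (NPC.Poly.const 0)

theorem p_names : Poly names := by
  unfold names
  refine Poly.flatMap (F := fun _ (c : Lit × Lit × Lit) => [c.1.1, c.2.1.1, c.2.2.1]) Poly.id ?_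
  have hc : Poly (fun x : Cnf3 × (Lit × Lit × Lit) => x.2) := Poly.snd Poly.id
  exact Poly.cons (Poly.fst (Poly.fst hc)) (Poly.cons (Poly.fst (Poly.fst (Poly.snd hc)))
    (Poly.cons (Poly.fst (Poly.snd (Poly.snd hc))) (NPC.Poly.const [])))

theorem p_idx {l : α → List ℕ} {v : α → ℕ} (hl : Poly l) (hv : Poly v) :
    Poly (fun a => idx (l a) (v a)) := by
  unfold idx
  exact Poly.length (Poly.filter (p := fun a w => decide (w < v a)) hl
    (Poly.decide_lt (Poly.snd Poly.id) (hv.comp (Poly.fst Poly.id))))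

theorem p_sgn {b : α → Bool} (hb : Poly b) : Poly (fun a => sgn (b a)) := by
  exact (Poly.cond hb (NPC.Poly.const (1 : ℤ)) (NPC.Poly.const (-1 : ℤ))).congr fun a => by
    cases b a <;> rfl

theorem p_negsgn {b : α → Bool} (hb : Poly b) : Poly (fun a => -sgn (b a)) := by
  exact (Poly.cond hb (NPC.Poly.const (-1 : ℤ)) (NPC.Poly.const (1 : ℤ))).congr fun a => by
    cases b a <;> rfl

theorem p_crow (K : ℕ) {i1 i2 i3 iu : α → ℕ} {b1 b2 b3 : α → Bool} (h1 : Poly i1) (h2 : Poly i2)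
    (h3 : Poly i3) (hu : Poly iu) (s1 : Poly b1) (s2 : Poly b2) (s3 : Poly b3) :
    Poly (fun a => crow K (i1 a) (i2 a) (i3 a) (iu a) (sgn (b1 a)) (sgn (b2 a)) (sgn (b3 a))) := by
  have c : ∀ z : ℤ, Poly (fun _ : α => z) := fun z => NPC.Poly.const z
  have n1 : Poly (fun _ : α => (1 : ℕ)) := NPC.Poly.const 1
  have n2 : Poly (fun _ : α => (2 : ℕ)) := NPC.Poly.const 2
  have two : ∀ {i j : α → ℕ} {x y : α → ℤ}, Poly i → Poly j → Poly x → Poly y →
      Poly (fun a => [(i a, x a), (j a, y a)]) := fun hi hj hx hy =>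
    Poly.cons (Poly.pair hi hx) (Poly.cons (Poly.pair hj hy) (NPC.Poly.const []))
  unfold crow
  refine Poly.cons (two h1 h2 (p_sgn s1) (p_negsgn s2)) ?_
  refine Poly.cons (two h2 hu (p_sgn s2) (c _)) ?_
  refine Poly.cons (two hu h1 (c _) (p_negsgn s1)) ?_
  refine Poly.cons (two hu h3 (c _) (p_negsgn s3)) ?_
  refine Poly.cons (two h3 n2 (p_sgn s3) (c _)) ?_
  refine Poly.cons (two n2 hu (c _) (c _)) ?_
  refine Poly.cons (two h1 n1 (c _) (c _)) ?_
  refine Poly.cons (two h1 n1 (c _) (c _)) ?_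
  refine Poly.cons (two h2 n1 (c _) (c _)) ?_
  refine Poly.cons (two h2 n1 (c _) (c _)) ?_
  refine Poly.cons (two h3 n1 (c _) (c _)) ?_
  refine Poly.cons (two h3 n1 (c _) (c _)) ?_
  refine Poly.cons (two n2 n1 (c _) (c _)) ?_
  refine Poly.cons (two n2 n1 (c _) (c _)) ?_
  refine Poly.cons (two hu n1 (c _) (c _)) ?_
  refine Poly.cons (two hu n1 (c _) (c _)) (NPC.Poly.const [])

theorem p_rows (K : ℕ) : Poly (rows K) := by
  unfold rows
  refine Poly.flatMap (F := rowC K) (Poly.zipIdx Poly.id) ?_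
  have hφ : Poly (fun x : Cnf3 × ((Lit × Lit × Lit) × ℕ) => x.1) := Poly.fst Poly.id
  have hc : Poly (fun x : Cnf3 × ((Lit × Lit × Lit) × ℕ) => x.2.1) := Poly.fst (Poly.snd Poly.id)
  have hk : Poly (fun x : Cnf3 × ((Lit × Lit × Lit) × ℕ) => x.2.2) := Poly.snd (Poly.snd Poly.id)
  have hn := p_names.comp hφ
  have c3 : Poly (fun _ : Cnf3 × ((Lit × Lit × Lit) × ℕ) => (3 : ℕ)) := NPC.Poly.const 3
  unfold rowC
  exact p_crow K (Poly.add c3 (p_idx hn (Poly.fst (Poly.fst hc))))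
    (Poly.add c3 (p_idx hn (Poly.fst (Poly.fst (Poly.snd hc)))))
    (Poly.add c3 (p_idx hn (Poly.fst (Poly.snd (Poly.snd hc)))))
    (Poly.add (Poly.add c3 (Poly.mul c3 (Poly.length hφ))) hk)
    (Poly.snd (Poly.fst hc)) (Poly.snd (Poly.fst (Poly.snd hc))) (Poly.snd (Poly.snd (Poly.snd hc)))

/-- the reduction -/
def red (K : ℕ) (φ : Cnf3) : Inst := inst (nz φ) (rows K φ)

theorem p_redM (K : ℕ) : Poly (red K) := by
  unfold red
  refine p_inst ?_ (p_rows K)
  exact UPoly.add (UPoly.const 2) (UPoly.mul (UPoly.const 4) (UPoly.length Poly.id))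

/-- the test -/
def tstM (Q : ℕ × ℕ) (φ : Cnf3) (y : ℤ × ℕ) : Bool :=
  decide (Q.1 * φ.length * (y.2 * y.2 * y.2) ≤ (y.1.natAbs * y.1.natAbs * y.1.natAbs) * Q.2)

theorem p_tstM (Q : ℕ × ℕ) {φ : α → Cnf3} {y : α → ℤ × ℕ} (hφ : Poly φ) (hy : Poly y) :
    Poly (fun a => tstM Q (φ a) (y a)) := by
  unfold tstM
  have hd := Poly.snd hy
  have hn := p_natAbs (Poly.fst hy)
  exact Poly.decide_le (Poly.mul (Poly.mul (NPC.Poly.const Q.1) (Poly.length hφ))
    (Poly.mul (Poly.mul hd hd) hd)) (Poly.mul (Poly.mul (Poly.mul hn hn) hn) (NPC.Poly.const Q.2))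

end Pool.Agent.H688R2.Mu
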